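import Mathlib

/-!
# Algebra of the quartic form `Tr |y|^4` on the `2 × 2` matrices
-/

set_option autoImplicit false

open Complex ComplexConjugate

namespace Q88.JLp

/-- `Tr y*y` -/
noncomputable def tt (y : Matrix (Fin 2) (Fin 2) ℂ) : ℝ :=
  normSq (y 0 0) + normSq (y 0 1) + normSq (y 1 0) + normSq (y 1 1)

/-- `Tr (y*y)²` -/
noncomputable def qq (y : Matrix (Fin 2) (Fin 2) ℂ) : ℝ := tt y ^ 2 - 2 * normSq y.det

/-- `Tr A*B` -/
noncomputable def gg (A B : Matrix (Fin 2) (Fin 2) ℂ) : ℂ :=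
  conj (A 0 0) * B 0 0 + conj (A 0 1) * B 0 1 + conj (A 1 0) * B 1 0 + conj (A 1 1) * B 1 1

/-- polar form of the determinant -/
noncomputable def dd (A B : Matrix (Fin 2) (Fin 2) ℂ) : ℂ :=
  A 0 0 * B 1 1 + A 1 1 * B 0 0 - A 0 1 * B 1 0 - A 1 0 * B 0 1

lemma tt_nonneg (y : Matrix (Fin 2) (Fin 2) ℂ) : 0 ≤ tt y := by
  unfold tt
  have := normSq_nonneg
  have h1 := normSq_nonneg (y 0 0)
  have h2 := normSq_nonneg (y 0 1)
  have h3 := normSq_nonneg (y 1 0)
  have h4 := normSq_nonneg (y 1 1)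
  linarith

lemma tt_eq_zero {y : Matrix (Fin 2) (Fin 2) ℂ} (h : tt y = 0) : y = 0 := by
  unfold tt at h
  have h1 := normSq_nonneg (y 0 0)
  have h2 := normSq_nonneg (y 0 1)
  have h3 := normSq_nonneg (y 1 0)
  have h4 := normSq_nonneg (y 1 1)
  ext i j
  fin_cases i <;> fin_cases j <;>
    · simp only [Fin.zero_eta, Fin.mk_one, Matrix.zero_apply, Fin.isValue]
      apply normSq_eq_zero.mp
      linarith

lemma cast_tt (y : Matrix (Fin 2) (Fin 2) ℂ) : (tt y : ℂ) =
    y 0 0 * conj (y 0 0) + y 0 1 * conj (y 0 1) + y 1 0 * conj (y 1 0) + y 1 1 * conj (y 1 1) := by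
  unfold tt
  push_cast
  simp only [← mul_conj]

lemma tt_smul (c : ℂ) (y : Matrix (Fin 2) (Fin 2) ℂ) : tt (c • y) = normSq c * tt y := by
  simp only [tt, Matrix.smul_apply, smul_eq_mul, map_mul]
  ring

lemma qq_smul (c : ℂ) (y : Matrix (Fin 2) (Fin 2) ℂ) : qq (c • y) = normSq c ^ 2 * qq y := by
  unfold qq
  rw [tt_smul, Matrix.det_smul]
  simp only [Fintype.card_fin, map_mul, map_pow]
  ring

lemma tt_add (A B : Matrix (Fin 2) (Fin 2) ℂ) : tt (A + B) = tt A + tt B + 2 * (gg A B).re := by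
  simp only [tt, gg, Matrix.add_apply, normSq_apply, add_re, add_im, mul_re, conj_re, conj_im]
  ring

lemma gg_smul (t : ℂ) (A B : Matrix (Fin 2) (Fin 2) ℂ) : gg A (t • B) = t * gg A B := by
  simp only [gg, Matrix.smul_apply, smul_eq_mul]
  ring

lemma gg_add (A B C : Matrix (Fin 2) (Fin 2) ℂ) : gg A (B + C) = gg A B + gg A C := by
  simp only [gg, Matrix.add_apply]
  ring

lemma gg_symm (A B : Matrix (Fin 2) (Fin 2) ℂ) : gg B A = conj (gg A B) := by
  simp only [gg, map_add, map_mul, conj_conj]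
  ring

lemma det_add' (A B : Matrix (Fin 2) (Fin 2) ℂ) : (A + B).det = A.det + B.det + dd A B := by
  simp only [Matrix.det_fin_two, dd, Matrix.add_apply]
  ring

lemma dd_smul (t : ℂ) (A B : Matrix (Fin 2) (Fin 2) ℂ) : dd A (t • B) = t * dd A B := by
  simp only [dd, Matrix.smul_apply, smul_eq_mul]
  ring

lemma dd_add (A B C : Matrix (Fin 2) (Fin 2) ℂ) : dd A (B + C) = dd A B + dd A C := by
  simp only [dd, Matrix.add_apply]
  ring

lemma dd_symm (A B : Matrix (Fin 2) (Fin 2) ℂ) : dd B A = dd A B := by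
  simp only [dd]
  ring

/-- the average over the fourth roots of unity -/
lemma sum_identity (A B : Matrix (Fin 2) (Fin 2) ℂ) :
    qq (A + B) + qq (A + (-1 : ℂ) • B) + qq (A + I • B) + qq (A + (-I) • B) =
      4 * qq A + 4 * qq B + 8 * (tt A * tt B + normSq (gg A B) - normSq (dd A B)) := by
  have h1 : ∀ t : ℂ, normSq t = 1 → qq (A + t • B) =
      (tt A + tt B + 2 * (t * gg A B).re) ^ 2 -
        2 * normSq (A.det + t ^ 2 * B.det + t * dd A B) := by
    intro t ht
    unfold qq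
    rw [tt_add, tt_smul, gg_smul, ht, one_mul, det_add', Matrix.det_smul, dd_smul]
    simp only [Fintype.card_fin]
  have e1 := h1 1 (by simp)
  rw [one_smul] at e1
  rw [e1, h1 (-1) (by simp), h1 I (by simp), h1 (-I) (by simp)]
  unfold qq
  generalize gg A B = g
  generalize dd A B = d
  generalize A.det = x
  generalize B.det = y
  simp only [normSq_apply, add_re, add_im, mul_re, mul_im, neg_re, neg_im, one_re, one_im, I_re,
    I_im, pow_two]
  ring

/-- equality in the Cauchy-Schwarz inequality -/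
lemma cs_identity (A B : Matrix (Fin 2) (Fin 2) ℂ) :
    normSq (tt B * A 1 1 - dd A B * conj (B 0 0)) + normSq (tt B * A 0 1 + dd A B * conj (B 1 0)) +
      normSq (tt B * A 1 0 + dd A B * conj (B 0 1)) + normSq (tt B * A 0 0 - dd A B * conj (B 1 1)) =
      tt B * (tt A * tt B - normSq (dd A B)) := by
  have h : ((normSq (tt B * A 1 1 - dd A B * conj (B 0 0)) +
      normSq (tt B * A 0 1 + dd A B * conj (B 1 0)) +
      normSq (tt B * A 1 0 + dd A B * conj (B 0 1)) +
      normSq (tt B * A 0 0 - dd A B * conj (B 1 1)) : ℝ) : ℂ) =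
      ((tt B * (tt A * tt B - normSq (dd A B)) : ℝ) : ℂ) := by
    push_cast
    simp only [← mul_conj, map_sub, map_add, map_mul, conj_conj, dd, cast_tt]
    ring
  exact_mod_cast h

/-- Two matrices such that the quartic form of `A + ωB` is additive. -/
lemma orth {A B : Matrix (Fin 2) (Fin 2) ℂ} (hB : B ≠ 0)
    (h : qq (A + B) + qq (A + (-1 : ℂ) • B) + qq (A + I • B) + qq (A + (-I) • B) =
      4 * qq A + 4 * qq B) :
    gg A B = 0 ∧ normSq (dd A B) = tt A * tt B ∧
      (tt B * A 1 1 = dd A B * conj (B 0 0) ∧ tt B * A 0 1 = - (dd A B * conj (B 1 0)) ∧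
      tt B * A 1 0 = - (dd A B * conj (B 0 1)) ∧ tt B * A 0 0 = dd A B * conj (B 1 1)) := by
  have h1 := sum_identity A B
  have h2 := cs_identity A B
  have hB' : 0 < tt B := lt_of_le_of_ne (tt_nonneg B) fun h => hB (tt_eq_zero h.symm)
  have n1 := normSq_nonneg (tt B * A 1 1 - dd A B * conj (B 0 0))
  have n2 := normSq_nonneg (tt B * A 0 1 + dd A B * conj (B 1 0))
  have n3 := normSq_nonneg (tt B * A 1 0 + dd A B * conj (B 0 1))
  have n4 := normSq_nonneg (tt B * A 0 0 - dd A B * conj (B 1 1))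
  have n5 := normSq_nonneg (gg A B)
  have h3 : tt A * tt B + normSq (gg A B) - normSq (dd A B) = 0 := by linarith
  have h4 : 0 ≤ tt A * tt B - normSq (dd A B) := by
    have : 0 ≤ tt B * (tt A * tt B - normSq (dd A B)) := by linarith
    exact nonneg_of_mul_nonneg_right this hB'
  have h5 : tt A * tt B - normSq (dd A B) = 0 := by linarith
  rw [h5, mul_zero] at h2
  have h6 : normSq (gg A B) = 0 := by linarith
  refine ⟨normSq_eq_zero.mp h6, by linarith, ?_, ?_, ?_, ?_⟩
  · exact sub_eq_zero.mp (normSq_eq_zero.mp (by linarith))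
  · exact eq_neg_of_add_eq_zero_left (normSq_eq_zero.mp (by linarith))
  · exact eq_neg_of_add_eq_zero_left (normSq_eq_zero.mp (by linarith))
  · exact sub_eq_zero.mp (normSq_eq_zero.mp (by linarith))

/-- the consequences used -/
lemma orth_cons {A B : Matrix (Fin 2) (Fin 2) ℂ} (hB : B ≠ 0)
    (h : qq (A + B) + qq (A + (-1 : ℂ) • B) + qq (A + I • B) + qq (A + (-I) • B) =
      4 * qq A + 4 * qq B) :
    gg A B = 0 ∧ normSq (dd A B) = tt A * tt B ∧ A.det = 0 ∧
      ∀ C, gg B C = 0 → dd A C = 0 := by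
  obtain ⟨h1, h2, e1, e2, e3, e4⟩ := orth hB h
  have hB' : (tt B : ℂ) ≠ 0 := by
    intro h0
    exact hB (tt_eq_zero (by exact_mod_cast h0))
  have key : ∀ C, (tt B : ℂ) * dd A C = dd A B * gg B C := by
    intro C
    have : (tt B : ℂ) * dd A C = (tt B * A 0 0) * C 1 1 + (tt B * A 1 1) * C 0 0 -
        (tt B * A 0 1) * C 1 0 - (tt B * A 1 0) * C 0 1 := by
      unfold dd
      ring
    rw [this, e1, e2, e3, e4]
    unfold gg
    ring
  refine ⟨h1, h2, ?_, ?_⟩
  · have h3 := key A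
    have h4 : gg B A = 0 := by rw [gg_symm, h1, map_zero]
    rw [h4, mul_zero] at h3
    have h5 : dd A A = 2 * A.det := by
      rw [Matrix.det_fin_two]
      unfold dd
      ring
    have h6 := (mul_eq_zero.mp h3).resolve_left hB'
    rw [h5] at h6
    simpa using h6
  · intro C hC
    have h3 := key C
    rw [hC, mul_zero] at h3
    exact (mul_eq_zero.mp h3).resolve_left hB'

/-- sign symmetry forces orthogonality of rank one matrices -/
lemma sign_orth {A C : Matrix (Fin 2) (Fin 2) ℂ} (hA : A.det = 0) (hC : C.det = 0)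
    (hA0 : A ≠ 0) (h : ∀ t : ℂ, qq (A + t • C) = qq (A - t • C)) : gg A C = 0 := by
  have hA' : 0 < tt A := lt_of_le_of_ne (tt_nonneg A) fun h => hA0 (tt_eq_zero h.symm)
  have key : ∀ t : ℂ, (t * gg A C).re = 0 := by
    intro t
    have h1 := h t
    have e : A - t • C = A + (-t) • C := by rw [neg_smul, sub_eq_add_neg]
    rw [e] at h1
    unfold qq at h1
    rw [tt_add, tt_add, tt_smul, tt_smul, gg_smul, gg_smul, det_add', det_add', Matrix.det_smul,
      Matrix.det_smul, dd_smul, dd_smul, hA, hC, normSq_neg] at h1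
    have e2 : normSq (0 + (-t) ^ Fintype.card (Fin 2) * 0 + -t * dd A C) =
        normSq (0 + t ^ Fintype.card (Fin 2) * 0 + t * dd A C) := by
      rw [mul_zero, mul_zero, add_zero, zero_add, zero_add, neg_mul, normSq_neg]
    rw [e2, neg_mul, neg_re] at h1
    have h3 : 0 ≤ normSq t * tt C := mul_nonneg (normSq_nonneg _) (tt_nonneg _)
    have h2 : 8 * (tt A + normSq t * tt C) * (t * gg A C).re = 0 := by linear_combination h1
    rcases mul_eq_zero.mp h2 with h4 | h4
    · exfalso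
      linarith
    · exact h4
  apply Complex.ext
  · have := key 1
    rwa [one_mul] at this
  · have := key I
    simpa using this

lemma qq_neg (y : Matrix (Fin 2) (Fin 2) ℂ) : qq (-y) = qq y := by
  have : -y = (-1 : ℂ) • y := by rw [neg_smul, one_smul]
  rw [this, qq_smul]
  simp

/-- **No linear map has these properties.** -/
theorem alg_main {a : ℝ} (h0 : 0 < a) (h1 : a < 1) (hne : a ≠ 1 / 2)
    (A B C D : Matrix (Fin 2) (Fin 2) ℂ)
    (hAB : ∀ s t : ℂ, qq (s • A + t • B) = 2 * (a * normSq s ^ 2 + (1 - a) * normSq t ^ 2))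
    (hCD : ∀ s t : ℂ, qq (s • C + t • D) = normSq s ^ 2 + normSq t ^ 2)
    (hAC : ∀ t : ℂ, qq (A + t • C) = qq (A - t • C))
    (hAD : ∀ t : ℂ, qq (A + t • D) = qq (A - t • D))
    (hBC : ∀ t : ℂ, qq (B + t • C) = qq (B - t • C))
    (hBD : ∀ t : ℂ, qq (B + t • D) = qq (B - t • D))
    (hu : qq (A - C + D + B) ≤ 8) : False := by
  have qA : qq A = 2 * a := by have := hAB 1 0; simpa using this
  have qB : qq B = 2 * (1 - a) := by have := hAB 0 1; simpa using this
  have qC : qq C = 1 := by have := hCD 1 0; simpa using this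
  have qD : qq D = 1 := by have := hCD 0 1; simpa using this
  have qz : qq (0 : Matrix (Fin 2) (Fin 2) ℂ) = 0 := by simp [qq, tt]
  have nA : A ≠ 0 := by rintro rfl; rw [qz] at qA; linarith
  have nB : B ≠ 0 := by rintro rfl; rw [qz] at qB; linarith
  have nC : C ≠ 0 := by rintro rfl; rw [qz] at qC; linarith
  have nD : D ≠ 0 := by rintro rfl; rw [qz] at qD; linarith
  have sAB : qq (A + B) + qq (A + (-1 : ℂ) • B) + qq (A + I • B) + qq (A + (-I) • B) =
      4 * qq A + 4 * qq B := by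
    have e1 := hAB 1 1
    have e2 := hAB 1 (-1)
    have e3 := hAB 1 I
    have e4 := hAB 1 (-I)
    simp only [one_smul, map_one, normSq_neg, normSq_I] at e1 e2 e3 e4
    rw [e1, e2, e3, e4, qA, qB]
    ring
  have sBA : qq (B + A) + qq (B + (-1 : ℂ) • A) + qq (B + I • A) + qq (B + (-I) • A) =
      4 * qq B + 4 * qq A := by
    have e1 := hAB 1 1
    have e2 := hAB (-1) 1
    have e3 := hAB I 1
    have e4 := hAB (-I) 1
    simp only [one_smul, map_one, normSq_neg, normSq_I] at e1 e2 e3 e4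
    rw [add_comm B A, add_comm B ((-1 : ℂ) • A), add_comm B (I • A), add_comm B ((-I) • A),
      e1, e2, e3, e4, qA, qB]
    ring
  have sCD : qq (C + D) + qq (C + (-1 : ℂ) • D) + qq (C + I • D) + qq (C + (-I) • D) =
      4 * qq C + 4 * qq D := by
    have e1 := hCD 1 1
    have e2 := hCD 1 (-1)
    have e3 := hCD 1 I
    have e4 := hCD 1 (-I)
    simp only [one_smul, map_one, normSq_neg, normSq_I] at e1 e2 e3 e4
    rw [e1, e2, e3, e4, qC, qD]
    ring
  have sDC : qq (D + C) + qq (D + (-1 : ℂ) • C) + qq (D + I • C) + qq (D + (-I) • C) =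
      4 * qq D + 4 * qq C := by
    have e1 := hCD 1 1
    have e2 := hCD (-1) 1
    have e3 := hCD I 1
    have e4 := hCD (-I) 1
    simp only [one_smul, map_one, normSq_neg, normSq_I] at e1 e2 e3 e4
    rw [add_comm D C, add_comm D ((-1 : ℂ) • C), add_comm D (I • C), add_comm D ((-I) • C),
      e1, e2, e3, e4, qC, qD]
    ring
  obtain ⟨gAB, dAB, detA, kA⟩ := orth_cons nB sAB
  obtain ⟨gBA, -, detB, kB⟩ := orth_cons nA sBA
  obtain ⟨gCD, dCD, detC, -⟩ := orth_cons nD sCD
  obtain ⟨-, -, detD, -⟩ := orth_cons nC sDC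
  have gAC := sign_orth detA detC nA hAC
  have gAD := sign_orth detA detD nA hAD
  have gBC := sign_orth detB detC nB hBC
  have gBD := sign_orth detB detD nB hBD
  have dAC := kA C gBC
  have dAD := kA D gBD
  have dBC := kB C gAC
  have dBD := kB D gAD
  have tA : tt A ^ 2 = 2 * a := by
    have : qq A = tt A ^ 2 := by unfold qq; rw [detA]; simp
    rw [← this, qA]
  have tB : tt B ^ 2 = 2 * (1 - a) := by
    have : qq B = tt B ^ 2 := by unfold qq; rw [detB]; simp
    rw [← this, qB]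
  have tC : tt C = 1 := by
    have : qq C = tt C ^ 2 := by unfold qq; rw [detC]; simp
    rw [qC] at this
    nlinarith [tt_nonneg C]
  have tD : tt D = 1 := by
    have : qq D = tt D ^ 2 := by unfold qq; rw [detD]; simp
    rw [qD] at this
    nlinarith [tt_nonneg D]
  rw [tC, tD] at dCD
  -- the element `u`
  have gCA : gg C A = 0 := by rw [gg_symm, gAC, map_zero]
  have gDA : gg D A = 0 := by rw [gg_symm, gAD, map_zero]
  have gCB : gg C B = 0 := by rw [gg_symm, gBC, map_zero]
  have gDB : gg D B = 0 := by rw [gg_symm, gBD, map_zero]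
  have eu : A - C + D + B = A + (B + (D + (-1 : ℂ) • C)) := by
    rw [neg_smul, one_smul]; abel
  have tu : tt (A - C + D + B) = tt A + tt B + 2 := by
    rw [eu, tt_add, tt_add, tt_add, gg_add, gg_add, gg_add, gg_smul, gg_smul, gg_smul, tt_smul,
      gAB, gAD, gAC, gBD, gBC, tC, tD, gg_symm C D, gCD]
    simp
    ring
  have du : (A - C + D + B).det = dd A B - dd C D := by
    rw [eu, det_add', det_add', det_add', dd_add, dd_add, dd_add, dd_smul, dd_smul, dd_smul,
      Matrix.det_smul, dAD, dAC, dBD, dBC, detA, detB, detC, detD, dd_symm C D]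
    simp
    ring
  unfold qq at hu
  rw [tu, du] at hu
  clear hAB hCD hAC hAD hBC hBD sAB sBA sCD sDC
  set Q : ℝ := Real.sqrt (tt A * tt B) with hQ
  have hQ0 : 0 ≤ Q := Real.sqrt_nonneg _
  have hQ2 : Q ^ 2 = tt A * tt B := Real.sq_sqrt (mul_nonneg (tt_nonneg _) (tt_nonneg _))
  have n1 : ‖dd A B‖ = Q := by
    have : ‖dd A B‖ ^ 2 = Q ^ 2 := by rw [← normSq_eq_norm_sq, dAB, hQ2]
    exact (pow_left_inj₀ (norm_nonneg _) hQ0 (by norm_num)).mp this
  have n2 : ‖dd C D‖ = 1 := by
    have : ‖dd C D‖ ^ 2 = 1 ^ 2 := by rw [← normSq_eq_norm_sq, dCD]; norm_num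
    exact (pow_left_inj₀ (norm_nonneg _) (by norm_num) (by norm_num)).mp this
  have n3 : normSq (dd A B - dd C D) ≤ (Q + 1) ^ 2 := by
    rw [normSq_eq_norm_sq]
    apply pow_le_pow_left₀ (norm_nonneg _)
    calc ‖dd A B - dd C D‖ ≤ ‖dd A B‖ + ‖dd C D‖ := norm_sub_le _ _
      _ = Q + 1 := by rw [n1, n2]
  have tA0 := tt_nonneg A
  have tB0 := tt_nonneg B
  set x := tt A with hx
  set y := tt B with hy
  have h3 : (x + y) ^ 2 = 2 + 2 * Q ^ 2 := by rw [hQ2]; linear_combination tA + tB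
  have h4 : x + y ≤ 1 + Q := by nlinarith only [hu, n3, h3]
  have h5 : (x + y) ^ 2 ≤ (1 + Q) ^ 2 := pow_le_pow_left₀ (by linarith) h4 2
  have h6 : (Q - 1) ^ 2 ≤ 0 := by nlinarith only [h3, h5]
  have h6' : Q = 1 := by
    have := pow_eq_zero_iff (n := 2) (by norm_num) |>.mp (le_antisymm h6 (sq_nonneg (Q - 1)))
    linarith
  rw [h6'] at hQ2
  have h7 : (x - y) ^ 2 ≤ 0 := by nlinarith only [hQ2, tA, tB]
  have h7 : x = y := by
    have := pow_eq_zero_iff (n := 2) (by norm_num) |>.mp (le_antisymm h7 (sq_nonneg (x - y)))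
    linarith
  rw [h7, tB] at tA
  apply hne
  linarith

end Q88.JLp
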