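import Mathlib

/-!
# Complex interpolation and nonassociative `L^p`-spaces: definitions

For a linear map `i : X₀ → X₁` (an embedding with `‖i x‖ ≤ ‖x‖`, so that `X₀ + X₁ = X₁`
isometrically) the complex interpolation space `(X₀, X₁)_θ` and its norm are defined by the usual
class of functions on the strip `0 ≤ Re z ≤ 1` (Calderon; Bergh and Loefstroem).
-/

set_option autoImplicit false

open Filter Topology Complex

namespace Q88.JLp

section Interp

variable {X₀ X₁ : Type*} [NormedAddCommGroup X₀] [NormedSpace ℂ X₀]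
  [NormedAddCommGroup X₁] [NormedSpace ℂ X₁]

/-- `F` is a function of the class used for the complex interpolation of the couple `(X₀, X₁)`,
where `X₀` is embedded in `X₁` by `i`: `F` is bounded and continuous on the closed strip
`0 ≤ Re z ≤ 1`, holomorphic in the open strip, `G t` is the element of `X₀` with `F (it) = i (G t)`,
the functions `G` and `t ↦ F (1 + it)` are continuous and tend to `0` at infinity, and their norms
in `X₀` and `X₁` are at most `C`. -/
structure Adm (i : X₀ →ₗ[ℂ] X₁) (F : ℂ → X₁) (G : ℝ → X₀) (C : ℝ) : Prop where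
  cont : ContinuousOn F {z | 0 ≤ z.re ∧ z.re ≤ 1}
  bdd : ∃ B : ℝ, ∀ z : ℂ, 0 ≤ z.re → z.re ≤ 1 → ‖F z‖ ≤ B
  diff : DifferentiableOn ℂ F {z | 0 < z.re ∧ z.re < 1}
  left : ∀ t : ℝ, F (t * I) = i (G t)
  contG : Continuous G
  vanG : Tendsto G (cocompact ℝ) (𝓝 0)
  vanF : Tendsto (fun t : ℝ => F (1 + t * I)) (cocompact ℝ) (𝓝 0)
  leG : ∀ t : ℝ, ‖G t‖ ≤ C
  leF : ∀ t : ℝ, ‖F (1 + t * I)‖ ≤ C

/-- The norm of the interpolation space `(X₀, X₁)_θ`: the infimum of the bounds `C` of the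
functions `F` of the class with `F θ = ξ`. -/
noncomputable def interpNorm (i : X₀ →ₗ[ℂ] X₁) (θ : ℝ) (ξ : X₁) : ℝ :=
  sInf {C : ℝ | ∃ F G, Adm i F G C ∧ F θ = ξ}

lemma Adm.add {i : X₀ →ₗ[ℂ] X₁} {F F' : ℂ → X₁} {G G' : ℝ → X₀} {C C' : ℝ}
    (h : Adm i F G C) (h' : Adm i F' G' C') :
    Adm i (fun z => F z + F' z) (fun t => G t + G' t) (C + C') where
  cont := h.cont.add h'.cont
  bdd := by
    obtain ⟨B, hB⟩ := h.bdd
    obtain ⟨B', hB'⟩ := h'.bdd
    exact ⟨B + B', fun z h0 h1 => (norm_add_le _ _).trans (add_le_add (hB z h0 h1) (hB' z h0 h1))⟩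
  diff := h.diff.add h'.diff
  left t := by rw [map_add, h.left, h'.left]
  contG := h.contG.add h'.contG
  vanG := by simpa using h.vanG.add h'.vanG
  vanF := by simpa using h.vanF.add h'.vanF
  leG t := (norm_add_le _ _).trans (add_le_add (h.leG t) (h'.leG t))
  leF t := (norm_add_le _ _).trans (add_le_add (h.leF t) (h'.leF t))

lemma Adm.smul {i : X₀ →ₗ[ℂ] X₁} {F : ℂ → X₁} {G : ℝ → X₀} {C : ℝ}
    (h : Adm i F G C) (c : ℂ) :
    Adm i (fun z => c • F z) (fun t => c • G t) (‖c‖ * C) where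
  cont := h.cont.const_smul c
  bdd := by
    obtain ⟨B, hB⟩ := h.bdd
    refine ⟨‖c‖ * B, fun z h0 h1 => ?_⟩
    rw [norm_smul]
    exact mul_le_mul_of_nonneg_left (hB z h0 h1) (norm_nonneg c)
  diff := h.diff.const_smul c
  left t := by rw [map_smul, h.left]
  contG := h.contG.const_smul c
  vanG := by simpa using h.vanG.const_smul c
  vanF := by simpa using h.vanF.const_smul c
  leG t := by
    rw [norm_smul]
    exact mul_le_mul_of_nonneg_left (h.leG t) (norm_nonneg c)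
  leF t := by
    rw [norm_smul]
    exact mul_le_mul_of_nonneg_left (h.leF t) (norm_nonneg c)

lemma Adm.nonneg {i : X₀ →ₗ[ℂ] X₁} {F : ℂ → X₁} {G : ℝ → X₀} {C : ℝ}
    (h : Adm i F G C) : 0 ≤ C := (norm_nonneg _).trans (h.leG 0)

lemma adm_zero (i : X₀ →ₗ[ℂ] X₁) : Adm i (fun _ => 0) (fun _ => 0) 0 where
  cont := continuousOn_const
  bdd := ⟨0, fun z _ _ => by simp⟩
  diff := differentiableOn_const _
  left t := by simp
  contG := continuous_const
  vanG := tendsto_const_nhds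
  vanF := tendsto_const_nhds
  leG t := by simp
  leF t := by simp

/-- The interpolation space `(X₀, X₁)_θ`, as a subspace of `X₁`. -/
def interpSpace (i : X₀ →ₗ[ℂ] X₁) (θ : ℝ) : Submodule ℂ X₁ where
  carrier := {ξ | ∃ F G C, Adm i F G C ∧ F θ = ξ}
  zero_mem' := ⟨_, _, _, adm_zero i, rfl⟩
  add_mem' := by
    rintro a b ⟨F, G, C, h, rfl⟩ ⟨F', G', C', h', rfl⟩
    exact ⟨_, _, _, h.add h', rfl⟩
  smul_mem' := by
    rintro c a ⟨F, G, C, h, rfl⟩
    exact ⟨_, _, _, h.smul c, rfl⟩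

end Interp

section LP

variable {A : Type*} [CStarAlgebra A]

/-- The Jordan product `x ∘ y = (xy + yx)/2`. -/
noncomputable def jordan (x y : A) : A := (1 / 2 : ℂ) • (x * y + y * x)

/-- Faithful states: `φ(1) = 1`, and `φ` takes positive values at the nonzero positive elements
`x* x`. (Used for finite-dimensional `A`, where all functionals are normal.) -/
def IsFaithfulState (φ : A →L[ℂ] ℂ) : Prop :=
  φ 1 = 1 ∧ ∀ x : A, x ≠ 0 → (φ (star x * x)).im = 0 ∧ 0 < (φ (star x * x)).re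

/-- The embedding `x ↦ φ_x`, `φ_x(y) = φ(x ∘ y)`. -/
noncomputable def embed (φ : A →L[ℂ] ℂ) : A →ₗ[ℂ] (A →L[ℂ] ℂ) where
  toFun x := (1 / 2 : ℂ) • (φ.comp (ContinuousLinearMap.mul ℂ A x) +
    φ.comp ((ContinuousLinearMap.mul ℂ A).flip x))
  map_add' x y := by
    ext z
    simp
    ring
  map_smul' c x := by
    ext z
    simp
    ring

lemma embed_apply (φ : A →L[ℂ] ℂ) (x y : A) : embed φ x y = φ (jordan x y) := by
  simp [embed, jordan]

/-- The nonassociative `L^p`-space of `(A, φ)`: the interpolation space `(A, A_*)_{1/p}`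
(for finite-dimensional `A`, where `A_*` is the dual space). -/
noncomputable def Lp (p : ℝ) (φ : A →L[ℂ] ℂ) : Submodule ℂ (A →L[ℂ] ℂ) :=
  interpSpace (embed φ) (1 / p)

/-- The norm of the nonassociative `L^p`-space. -/
noncomputable def lpNorm (p : ℝ) (φ : A →L[ℂ] ℂ) (ξ : A →L[ℂ] ℂ) : ℝ :=
  interpNorm (embed φ) (1 / p) ξ

/-- `L^p(A, φ)` and `L^p(B, ψ)` are isometrically isomorphic. -/
def LpIsometric {B : Type*} [CStarAlgebra B] (p : ℝ) (φ : A →L[ℂ] ℂ) (ψ : B →L[ℂ] ℂ) : Prop :=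
  ∃ J : Lp p φ ≃ₗ[ℂ] Lp p ψ, ∀ ξ : Lp p φ, lpNorm p ψ (J ξ) = lpNorm p φ ξ

end LP

end Q88.JLp
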