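import Pool.Agent.Q88.JLp.Svd

/-!
# The spaces `L^4` of two states of the `2 × 2` matrices are not isometric
-/

set_option autoImplicit false

open Filter Topology Complex
open scoped Matrix.Norms.L2Operator

namespace Q88.JLp

/-- the norm of `L^4` at `φ_x` -/
noncomputable def na (a : ℝ) (x : M2) : ℝ :=
  interpNorm (embed (diagState a)) (1 / 4) (embed (diagState a) x)

lemma na_nonneg (a : ℝ) (x : M2) : 0 ≤ na a x := interpNorm_nonneg _ _ _

lemma norm_jordan_le (x y : M2) : ‖jordan x y‖ ≤ ‖x‖ * ‖y‖ := by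
  unfold jordan
  rw [norm_smul]
  have h1 := norm_mul_le x y
  have h2 := norm_mul_le y x
  have h3 := norm_add_le (x * y) (y * x)
  have h5 : ‖(1 / 2 : ℂ)‖ = 1 / 2 := by simp
  rw [h5]
  linarith [mul_comm ‖x‖ ‖y‖]

section

variable {a : ℝ} (h0 : 0 < a) (h1 : a < 1)

include h0 h1

lemma norm_diagState_apply_le (x : M2) : ‖diagState a x‖ ≤ ‖x‖ := by
  rw [diagState_apply]
  have e0 := norm_diag_entry_le x 0
  have e1 := norm_diag_entry_le x 1
  calc ‖(a : ℂ) * x 0 0 + ((1 - a : ℝ) : ℂ) * x 1 1‖
      ≤ ‖(a : ℂ) * x 0 0‖ + ‖((1 - a : ℝ) : ℂ) * x 1 1‖ := norm_add_le _ _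
    _ = a * ‖x 0 0‖ + (1 - a) * ‖x 1 1‖ := by
        rw [norm_mul, norm_mul, norm_real, norm_real, Real.norm_of_nonneg h0.le,
          Real.norm_of_nonneg (by linarith)]
    _ ≤ a * ‖x‖ + (1 - a) * ‖x‖ := by gcongr
    _ = ‖x‖ := by ring

lemma norm_embed_le (x : M2) : ‖embed (diagState a) x‖ ≤ ‖x‖ := by
  refine ContinuousLinearMap.opNorm_le_bound _ (norm_nonneg x) fun y => ?_
  rw [embed_apply]
  exact (norm_diagState_apply_le h0 h1 _).trans (norm_jordan_le x y)

lemma mem_and_le (x : M2) :
    embed (diagState a) x ∈ interpSpace (embed (diagState a)) (1 / 4) ∧ na a x ≤ ‖x‖ :=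
  interpNorm_le (i := embed (diagState a)) (F := fun _ => embed (diagState a) x)
    (G := fun _ => x) (θ := 1 / 4) continuousOn_const
    ⟨‖x‖, fun _ _ _ => norm_embed_le h0 h1 x⟩ (differentiableOn_const _) (fun _ => rfl)
    continuous_const (fun _ => le_rfl) (fun _ => norm_embed_le h0 h1 x)

lemma na_add_le (x y : M2) : na a (x + y) ≤ na a x + na a y := by
  unfold na
  rw [map_add]
  exact interpNorm_add_le (mem_and_le h0 h1 x).1 (mem_and_le h0 h1 y).1

lemma na_lipschitz : LipschitzWith 1 (na a) := by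
  apply LipschitzWith.of_le_add
  intro x y
  have e : x = y + (x - y) := by abel
  calc na a x = na a (y + (x - y)) := by rw [← e]
    _ ≤ na a y + na a (x - y) := na_add_le h0 h1 _ _
    _ ≤ na a y + dist x y := by
        rw [dist_eq_norm]
        linarith [(mem_and_le h0 h1 (x - y)).2]

/-- symmetry -/
lemma na_refl_mul_le (x : M2) : na a (refl * x) ≤ na a x := by
  have := (interpNorm_map_le (i := embed (diagState a)) (j := embed (diagState a))
    (ContinuousLinearMap.mul ℂ M2 refl)
    ((ContinuousLinearMap.compL ℂ M2 M2 ℂ).flip ((ContinuousLinearMap.mul ℂ M2).flip refl))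
    (fun x => ?_) (fun ξ => ?_) (fun x => ?_) (mem_and_le h0 h1 x).1).2
  · have e : ((ContinuousLinearMap.compL ℂ M2 M2 ℂ).flip
        ((ContinuousLinearMap.mul ℂ M2).flip refl)) (embed (diagState a) x) =
        embed (diagState a) (refl * x) := by
      ext y
      simp only [ContinuousLinearMap.flip_apply, ContinuousLinearMap.compL_apply,
        ContinuousLinearMap.comp_apply, ContinuousLinearMap.mul_apply']
      rw [embed_apply, embed_apply, diagState_apply, diagState_apply, jordan_apply, jordan_apply,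
        jordan_apply, jordan_apply]
      simp [refl]
    rw [e] at this
    exact this
  · simp only [ContinuousLinearMap.mul_apply']
    rw [CStarRing.norm_mem_unitary_mul _ refl_mem]
  · refine ContinuousLinearMap.opNorm_le_bound _ (norm_nonneg ξ) fun y => ?_
    simp only [ContinuousLinearMap.flip_apply, ContinuousLinearMap.compL_apply,
        ContinuousLinearMap.comp_apply, ContinuousLinearMap.mul_apply']
    refine (ξ.le_opNorm _).trans ?_
    rw [CStarRing.norm_mul_mem_unitary _ refl_mem]
  · ext y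
    simp only [ContinuousLinearMap.flip_apply, ContinuousLinearMap.compL_apply,
        ContinuousLinearMap.comp_apply, ContinuousLinearMap.mul_apply']
    rw [embed_apply, embed_apply, diagState_apply, diagState_apply, jordan_apply, jordan_apply,
        jordan_apply, jordan_apply]
    simp [refl]

lemma na_mul_refl_le (x : M2) : na a (x * refl) ≤ na a x := by
  have := (interpNorm_map_le (i := embed (diagState a)) (j := embed (diagState a))
    ((ContinuousLinearMap.mul ℂ M2).flip refl)
    ((ContinuousLinearMap.compL ℂ M2 M2 ℂ).flip (ContinuousLinearMap.mul ℂ M2 refl))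
    (fun x => ?_) (fun ξ => ?_) (fun x => ?_) (mem_and_le h0 h1 x).1).2
  · have e : ((ContinuousLinearMap.compL ℂ M2 M2 ℂ).flip
        (ContinuousLinearMap.mul ℂ M2 refl)) (embed (diagState a) x) =
        embed (diagState a) (x * refl) := by
      ext y
      simp only [ContinuousLinearMap.flip_apply, ContinuousLinearMap.compL_apply,
        ContinuousLinearMap.comp_apply, ContinuousLinearMap.mul_apply']
      rw [embed_apply, embed_apply, diagState_apply, diagState_apply, jordan_apply, jordan_apply,
        jordan_apply, jordan_apply]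
      simp [refl]
    rw [e] at this
    exact this
  · simp only [ContinuousLinearMap.mul_apply', ContinuousLinearMap.flip_apply]
    rw [CStarRing.norm_mul_mem_unitary _ refl_mem]
  · refine ContinuousLinearMap.opNorm_le_bound _ (norm_nonneg ξ) fun y => ?_
    simp only [ContinuousLinearMap.flip_apply, ContinuousLinearMap.compL_apply,
        ContinuousLinearMap.comp_apply, ContinuousLinearMap.mul_apply']
    refine (ξ.le_opNorm _).trans ?_
    rw [CStarRing.norm_mem_unitary_mul _ refl_mem]
  · ext y
    simp only [ContinuousLinearMap.flip_apply, ContinuousLinearMap.compL_apply,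
        ContinuousLinearMap.comp_apply, ContinuousLinearMap.mul_apply']
    rw [embed_apply, embed_apply, diagState_apply, diagState_apply, jordan_apply, jordan_apply,
        jordan_apply, jordan_apply]
    simp [refl]

lemma refl_sq : refl * refl = (1 : M2) := by
  have := (Unitary.mem_iff.mp refl_mem).1
  rwa [star_refl] at this

lemma na_refl_mul (x : M2) : na a (refl * x) = na a x := by
  apply le_antisymm (na_refl_mul_le h0 h1 x)
  have := na_refl_mul_le h0 h1 (refl * x)
  rwa [← mul_assoc, refl_sq h0 h1, one_mul] at this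

lemma na_mul_refl (x : M2) : na a (x * refl) = na a x := by
  apply le_antisymm (na_mul_refl_le h0 h1 x)
  have := na_mul_refl_le h0 h1 (x * refl)
  rwa [mul_assoc, refl_sq h0 h1, mul_one] at this

lemma na_diag (s : Fin 2 → ℂ) :
    na a (Matrix.diagonal s) ^ 4 = a * ‖s 0‖ ^ 4 + (1 - a) * ‖s 1‖ ^ 4 := by
  have := ((frame_diag h0 h1).norm_eq s).2
  rw [one_mul, mul_one] at this
  unfold na
  rw [this, Fin.sum_univ_two]
  simp

lemma na_off (s : Fin 2 → ℂ) :
    na a (Matrix.diagonal s * flip) ^ 4 = (‖s 0‖ ^ 4 + ‖s 1‖ ^ 4) / 2 := by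
  have := ((frame_off a).norm_eq s).2
  rw [one_mul] at this
  unfold na
  rw [this, Fin.sum_univ_two]
  simp
  ring

end

lemma continuous_qq : Continuous (fun y : M2 => qq y) := by
  have h : ∀ i j : Fin 2, Continuous (fun y : M2 => y i j) := fun i j =>
    (continuous_apply j).comp (continuous_apply i)
  unfold qq tt
  simp only [Matrix.det_fin_two]
  have := Complex.continuous_normSq
  fun_prop

lemma na_half_of_det {y : M2} (hy : y.det ≠ 0) : na (1 / 2) y ^ 4 = qq y / 2 := by
  obtain ⟨U, hU, V, hV, s, rfl⟩ := exists_svd y hy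
  rw [qq_unitary hU hV]
  have := ((frame_tr hU hV).norm_eq s).2
  unfold na
  rw [this, Fin.sum_univ_two]
  simp
  ring

lemma na_half (y : M2) : na (1 / 2) y ^ 4 = qq y / 2 := by
  have hev : ∀ᶠ ε : ℂ in 𝓝[≠] 0, (y + ε • (1 : M2)).det ≠ 0 := by
    have hdet : ∀ ε : ℂ, (y + ε • (1 : M2)).det = ε * (ε + (y 0 0 + y 1 1)) + y.det := by
      intro ε
      simp only [Matrix.det_fin_two, Matrix.add_apply, Matrix.smul_apply, smul_eq_mul,
        Matrix.one_apply_eq, ne_eq, one_ne_zero, not_false_eq_true, zero_ne_one,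
        Matrix.one_apply_ne, mul_zero, add_zero, mul_one]
      ring
    simp only [hdet]
    by_cases hd : y.det = 0
    · simp only [hd, add_zero]
      by_cases ht : y 0 0 + y 1 1 = 0
      · simp only [ht, add_zero]
        filter_upwards [self_mem_nhdsWithin] with ε hε
        exact mul_ne_zero hε hε
      · have h2 : ∀ᶠ ε : ℂ in 𝓝 0, ε + (y 0 0 + y 1 1) ≠ 0 := by
          have hc : Continuous fun ε : ℂ => ε + (y 0 0 + y 1 1) := by fun_prop
          apply hc.continuousAt.eventually_ne
          rwa [zero_add]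
        filter_upwards [self_mem_nhdsWithin, nhdsWithin_le_nhds h2] with ε hε hε2
        exact mul_ne_zero hε hε2
    · have h2 : ∀ᶠ ε : ℂ in 𝓝 0, ε * (ε + (y 0 0 + y 1 1)) + y.det ≠ 0 := by
        have hc : Continuous fun ε : ℂ => ε * (ε + (y 0 0 + y 1 1)) + y.det := by fun_prop
        apply hc.continuousAt.eventually_ne
        rwa [zero_mul, zero_add]
      exact nhdsWithin_le_nhds h2
  have hlin : Continuous fun ε : ℂ => y + ε • (1 : M2) := by fun_prop
  have l1 : Tendsto (fun ε : ℂ => na (1 / 2) (y + ε • (1 : M2)) ^ 4) (𝓝[≠] 0)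
      (𝓝 (na (1 / 2) y ^ 4)) := by
    have hc : Continuous fun ε : ℂ => na (1 / 2) (y + ε • (1 : M2)) ^ 4 :=
      ((na_lipschitz (a := 1 / 2) (by norm_num) (by norm_num)).continuous.comp hlin).pow 4
    have := hc.tendsto 0
    simp only [zero_smul, add_zero] at this
    exact this.mono_left nhdsWithin_le_nhds
  have l2 : Tendsto (fun ε : ℂ => qq (y + ε • (1 : M2)) / 2) (𝓝[≠] 0) (𝓝 (qq y / 2)) := by
    have hc : Continuous fun ε : ℂ => qq (y + ε • (1 : M2)) / 2 :=
      (continuous_qq.comp hlin).div_const 2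
    have := hc.tendsto 0
    simp only [zero_smul, add_zero] at this
    exact this.mono_left nhdsWithin_le_nhds
  refine tendsto_nhds_unique (l1.congr' ?_) l2
  filter_upwards [hev] with ε hε
  exact na_half_of_det hε

/-- the density of a functional with respect to the normalized trace -/
noncomputable def dens : (M2 →L[ℂ] ℂ) →ₗ[ℂ] M2 where
  toFun ξ := Matrix.of fun i j => 2 * ξ (Matrix.single j i 1)
  map_add' ξ η := by ext i j; simp [mul_add]
  map_smul' c ξ := by ext i j; simp; ring

lemma embed_dens (ξ : M2 →L[ℂ] ℂ) : embed (diagState (1 / 2)) (dens ξ) = ξ := by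
  ext y
  rw [embed_trace, Matrix.trace_fin_two, Matrix.mul_apply, Matrix.mul_apply, Fin.sum_univ_two,
    Fin.sum_univ_two]
  have hy : y = y 0 0 • Matrix.single 0 0 (1 : ℂ) + y 0 1 • Matrix.single 0 1 (1 : ℂ) +
      y 1 0 • Matrix.single 1 0 (1 : ℂ) + y 1 1 • Matrix.single 1 1 (1 : ℂ) := by
    ext i j
    fin_cases i <;> fin_cases j <;> simp [Matrix.single]
  have hξ : ξ y = y 0 0 * ξ (Matrix.single 0 0 (1 : ℂ)) + y 0 1 * ξ (Matrix.single 0 1 (1 : ℂ)) +
      y 1 0 * ξ (Matrix.single 1 0 (1 : ℂ)) + y 1 1 * ξ (Matrix.single 1 1 (1 : ℂ)) := by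
    conv_lhs => rw [hy]
    simp only [map_add, map_smul, smul_eq_mul]
  rw [hξ]
  simp only [dens, LinearMap.coe_mk, AddHom.coe_mk, Matrix.of_apply]
  ring

theorem not_isometric {a : ℝ} (h0 : 0 < a) (h1 : a < 1) (hne : a ≠ 1 / 2) :
    ¬ LpIsometric 4 (diagState a) (diagState (1 / 2)) := by
  rintro ⟨J, hJ⟩
  let L : M2 →ₗ[ℂ] M2 :=
    { toFun := fun x => dens (J ⟨embed (diagState a) x, (mem_and_le h0 h1 x).1⟩ : M2 →L[ℂ] ℂ)
      map_add' := fun x y => by
        rw [← map_add]
        congr 1
        rw [← Submodule.coe_add, ← map_add]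
        congr 2
        ext1
        simp
      map_smul' := fun c x => by
        rw [RingHom.id_apply, ← map_smul]
        congr 1
        rw [← Submodule.coe_smul, ← map_smul]
        congr 2
        ext1
        simp }
  have hL : ∀ x, qq (L x) = 2 * na a x ^ 4 := by
    intro x
    have h2 := na_half (L x)
    have h3 : na (1 / 2) (L x) = na a x := by
      unfold na
      have : embed (diagState (1 / 2)) (L x) =
          (J ⟨embed (diagState a) x, (mem_and_le h0 h1 x).1⟩ : M2 →L[ℂ] ℂ) := embed_dens _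
      rw [this]
      exact hJ ⟨embed (diagState a) x, (mem_and_le h0 h1 x).1⟩
    rw [h3] at h2
    linarith
  have hn4 : ∀ z : ℂ, ‖z‖ ^ 4 = normSq z ^ 2 := by
    intro z
    rw [normSq_eq_norm_sq]
    ring
  let e00 : M2 := !![1, 0; 0, 0]
  let e01 : M2 := !![0, 1; 0, 0]
  let e10 : M2 := !![0, 0; 1, 0]
  let e11 : M2 := !![0, 0; 0, 1]
  refine alg_main h0 h1 hne (L e00) (L e11) (L e01) (L e10) ?_ ?_ ?_ ?_ ?_ ?_ ?_
  · intro s t
    rw [← L.map_smul, ← L.map_smul, ← L.map_add, hL]
    have e : s • e00 + t • e11 = Matrix.diagonal ![s, t] := by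
      ext i j
      fin_cases i <;> fin_cases j <;> simp [e00, e11]
    rw [e, na_diag h0 h1]
    simp only [hn4]
    simp
  · intro s t
    rw [← L.map_smul, ← L.map_smul, ← L.map_add, hL]
    have e : s • e01 + t • e10 = Matrix.diagonal ![s, t] * flip := by
      ext i j
      rw [Matrix.diagonal_mul, flip_apply]
      fin_cases i <;> fin_cases j <;> simp [e01, e10]
    rw [e, na_off h0 h1]
    simp only [hn4]
    simp
    ring
  · intro t
    rw [← L.map_smul, ← L.map_add, ← L.map_sub, hL, hL]
    have e : e00 - t • e01 = (e00 + t • e01) * refl := by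
      ext i j
      unfold refl
      rw [Matrix.mul_diagonal]
      fin_cases i <;> fin_cases j <;> simp [e00, e01]
    rw [e, na_mul_refl h0 h1]
  · intro t
    rw [← L.map_smul, ← L.map_add, ← L.map_sub, hL, hL]
    have e : e00 - t • e10 = refl * (e00 + t • e10) := by
      ext i j
      unfold refl
      rw [Matrix.diagonal_mul]
      fin_cases i <;> fin_cases j <;> simp [e00, e10]
    rw [e, na_refl_mul h0 h1]
  · intro t
    rw [← qq_neg (L e11 - _), ← L.map_smul, ← L.map_add, ← L.map_sub, ← L.map_neg, hL, hL]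
    have e : -(e11 - t • e01) = refl * (e11 + t • e01) := by
      ext i j
      unfold refl
      rw [Matrix.diagonal_mul]
      fin_cases i <;> fin_cases j <;> simp [e11, e01]
    rw [e, na_refl_mul h0 h1]
  · intro t
    rw [← qq_neg (L e11 - _), ← L.map_smul, ← L.map_add, ← L.map_sub, ← L.map_neg, hL, hL]
    have e : -(e11 - t • e10) = (e11 + t • e10) * refl := by
      ext i j
      unfold refl
      rw [Matrix.mul_diagonal]
      fin_cases i <;> fin_cases j <;> simp [e11, e10]
    rw [e, na_mul_refl h0 h1]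
  · rw [← L.map_sub, ← L.map_add, ← L.map_add, hL]
    set u : M2 := e00 - e01 + e10 + e11 with hu
    have h2 := (mem_and_le h0 h1 u).2
    have h3 : ‖u‖ * ‖u‖ = 2 := by
      rw [← CStarRing.norm_star_mul_self]
      have e : star u * u = (2 : ℂ) • (1 : M2) := by
        ext i j
        rw [Matrix.mul_apply, Fin.sum_univ_two]
        fin_cases i <;> fin_cases j <;>
          simp [hu, e00, e01, e10, e11, Matrix.star_eq_conjTranspose] <;> norm_num
      rw [e, norm_smul, norm_one]
      simp
    have h4 : na a u ^ 4 ≤ ‖u‖ ^ 4 := pow_le_pow_left₀ (na_nonneg _ _) h2 4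
    have h5 : ‖u‖ ^ 4 = 4 := by
      calc ‖u‖ ^ 4 = (‖u‖ * ‖u‖) ^ 2 := by ring
        _ = 4 := by rw [h3]; norm_num
    linarith

lemma isFaithfulState_diagState {a : ℝ} (h0 : 0 < a) (h1 : a < 1) :
    IsFaithfulState (diagState a) := by
  refine ⟨?_, fun x hx => ?_⟩
  · rw [diagState_apply]
    simp
  · have e : diagState a (star x * x) = (((a * (normSq (x 0 0) + normSq (x 1 0)) +
        (1 - a) * (normSq (x 0 1) + normSq (x 1 1))) : ℝ) : ℂ) := by
      rw [diagState_apply, Matrix.mul_apply, Matrix.mul_apply, Fin.sum_univ_two, Fin.sum_univ_two]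
      push_cast
      simp only [← mul_conj]
      simp only [Matrix.star_apply]
      change (a : ℂ) * ((starRingEnd ℂ) (x 0 0) * x 0 0 + (starRingEnd ℂ) (x 1 0) * x 1 0) +
        (1 - (a : ℂ)) * ((starRingEnd ℂ) (x 0 1) * x 0 1 + (starRingEnd ℂ) (x 1 1) * x 1 1) = _
      ring
    rw [e]
    refine ⟨ofReal_im _, ?_⟩
    rw [ofReal_re]
    have ht : 0 < tt x := lt_of_le_of_ne (tt_nonneg x) fun h => hx (tt_eq_zero h.symm)
    unfold tt at ht
    have n1 := normSq_nonneg (x 0 0)
    have n2 := normSq_nonneg (x 0 1)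
    have n3 := normSq_nonneg (x 1 0)
    have n4 := normSq_nonneg (x 1 1)
    have h2 : 0 < 1 - a := by linarith
    rcases (add_nonneg n1 n3).eq_or_lt with h3 | h3
    · have h4 : 0 < normSq (x 0 1) + normSq (x 1 1) := by linarith
      have := mul_pos h2 h4
      rw [← h3, mul_zero, zero_add]
      exact this
    · have := mul_pos h0 h3
      have := mul_nonneg h2.le (add_nonneg n2 n4)
      linarith

end Q88.JLp
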