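import Pool.Agent.Q88.JLp.Defs

/-!
# Upper and lower bounds for the interpolation norm
-/

set_option autoImplicit false

open Filter Topology Complex

namespace Q88.JLp

section Interp

variable {X₀ X₁ : Type*} [NormedAddCommGroup X₀] [NormedSpace ℂ X₀]
  [NormedAddCommGroup X₁] [NormedSpace ℂ X₁]

lemma bddBelow_adm (i : X₀ →ₗ[ℂ] X₁) (θ : ℝ) (ξ : X₁) :
    BddBelow {C : ℝ | ∃ F G, Adm i F G C ∧ F θ = ξ} :=
  ⟨0, by rintro C ⟨F, G, h, -⟩; exact h.nonneg⟩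

lemma interpNorm_nonneg (i : X₀ →ₗ[ℂ] X₁) (θ : ℝ) (ξ : X₁) : 0 ≤ interpNorm i θ ξ :=
  Real.sInf_nonneg (by rintro C ⟨F, G, h, -⟩; exact h.nonneg)

lemma Adm.interpNorm_le {i : X₀ →ₗ[ℂ] X₁} {F : ℂ → X₁} {G : ℝ → X₀} {C : ℝ}
    (h : Adm i F G C) (θ : ℝ) : interpNorm i θ (F θ) ≤ C :=
  csInf_le (bddBelow_adm i θ _) ⟨F, G, h, rfl⟩

lemma Adm.mono {i : X₀ →ₗ[ℂ] X₁} {F : ℂ → X₁} {G : ℝ → X₀} {C C' : ℝ}
    (h : Adm i F G C) (hC : C ≤ C') : Adm i F G C' :=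
  { h with leG := fun t => (h.leG t).trans hC, leF := fun t => (h.leF t).trans hC }

/-- norm of the damping factor -/
lemma norm_damp (δ θ : ℝ) (z : ℂ) :
    ‖exp ((δ : ℂ) * (z ^ 2 - (θ : ℂ) ^ 2))‖ = Real.exp (δ * (z.re ^ 2 - z.im ^ 2 - θ ^ 2)) := by
  rw [Complex.norm_exp]
  congr 1
  simp only [mul_re, ofReal_re, ofReal_im, sub_re, sub_im, pow_two, zero_mul, sub_zero]

/-- functions of the class without the condition at infinity also bound the norm -/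
lemma adm_damp {i : X₀ →ₗ[ℂ] X₁} {F : ℂ → X₁} {G : ℝ → X₀} {C θ δ : ℝ} (hδ : 0 < δ)
    (cont : ContinuousOn F {z | 0 ≤ z.re ∧ z.re ≤ 1})
    (bdd : ∃ B : ℝ, ∀ z : ℂ, 0 ≤ z.re → z.re ≤ 1 → ‖F z‖ ≤ B)
    (diff : DifferentiableOn ℂ F {z | 0 < z.re ∧ z.re < 1})
    (left : ∀ t : ℝ, F (t * I) = i (G t))
    (contG : Continuous G)
    (leG : ∀ t : ℝ, ‖G t‖ ≤ C)
    (leF : ∀ t : ℝ, ‖F (1 + t * I)‖ ≤ C) :
    Adm i (fun z => exp ((δ : ℂ) * (z ^ 2 - (θ : ℂ) ^ 2)) • F z)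
      (fun t => exp ((δ : ℂ) * ((t * I) ^ 2 - (θ : ℂ) ^ 2)) • G t) (Real.exp δ * C) := by
  have hC : 0 ≤ C := (norm_nonneg _).trans (leG 0)
  have hexp : Continuous fun z : ℂ => exp ((δ : ℂ) * (z ^ 2 - (θ : ℂ) ^ 2)) := by fun_prop
  have hexp' : Continuous fun t : ℝ => exp ((δ : ℂ) * ((t * I) ^ 2 - (θ : ℂ) ^ 2)) := by fun_prop
  have key : ∀ z : ℂ, 0 ≤ z.re → z.re ≤ 1 →
      ‖exp ((δ : ℂ) * (z ^ 2 - (θ : ℂ) ^ 2))‖ ≤ Real.exp δ * Real.exp (-δ * z.im ^ 2) := by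
    intro z h0 h1
    rw [norm_damp, ← Real.exp_add]
    apply Real.exp_le_exp.mpr
    nlinarith [sq_nonneg θ, mul_nonneg h0 (sub_nonneg.mpr h1), mul_nonneg hδ.le (sq_nonneg θ),
      mul_nonneg hδ.le (mul_nonneg h0 (sub_nonneg.mpr h1)), mul_nonneg hδ.le (sub_nonneg.mpr h1)]
  have key1 : ∀ z : ℂ, 0 ≤ z.re → z.re ≤ 1 →
      ‖exp ((δ : ℂ) * (z ^ 2 - (θ : ℂ) ^ 2))‖ ≤ Real.exp δ := by
    intro z h0 h1
    refine (key z h0 h1).trans ?_
    have : Real.exp (-δ * z.im ^ 2) ≤ 1 := by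
      apply Real.exp_le_one_iff.mpr
      nlinarith [mul_nonneg hδ.le (sq_nonneg z.im)]
    nlinarith [Real.exp_pos δ]
  have hlim : Tendsto (fun t : ℝ => Real.exp δ * Real.exp (-δ * t ^ 2) * C) (cocompact ℝ)
      (𝓝 0) := by
    have h1 : Tendsto (fun t : ℝ => Real.exp (-δ * t ^ 2)) (cocompact ℝ) (𝓝 0) := by
      apply Real.tendsto_exp_atBot.comp
      have h2 : Tendsto (fun t : ℝ => t ^ 2) (cocompact ℝ) atTop := by
        have := (tendsto_norm_cocompact_atTop (E := ℝ))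
        have h3 := (tendsto_pow_atTop (α := ℝ) (two_ne_zero)).comp this
        refine h3.congr fun t => ?_
        simp
      exact h2.const_mul_atTop_of_neg (by linarith)
    have := (h1.const_mul (Real.exp δ)).mul_const C
    simpa using this
  have e0 : ∀ t : ℝ, ((t : ℂ) * I).re = 0 := fun t => by simp
  have e0' : ∀ t : ℝ, ((t : ℂ) * I).im = t := fun t => by simp
  have e1 : ∀ t : ℝ, (1 + (t : ℂ) * I).re = 1 := fun t => by simp
  have e1' : ∀ t : ℝ, (1 + (t : ℂ) * I).im = t := fun t => by simp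
  refine ⟨?_, ?_, ?_, ?_, ?_, ?_, ?_, ?_, ?_⟩
  · exact hexp.continuousOn.smul cont
  · obtain ⟨B, hB⟩ := bdd
    refine ⟨Real.exp δ * B, fun z h0 h1 => ?_⟩
    rw [norm_smul]
    exact mul_le_mul (key1 z h0 h1) (hB z h0 h1) (norm_nonneg _) (Real.exp_pos _).le
  · refine DifferentiableOn.smul ?_ diff
    fun_prop
  · intro t
    rw [map_smul, left]
  · exact hexp'.smul contG
  · refine squeeze_zero_norm (fun t => ?_) hlim
    rw [norm_smul]
    have := key ((t : ℂ) * I) (by rw [e0]) (by rw [e0]; norm_num)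
    rw [e0'] at this
    exact mul_le_mul this (leG t) (norm_nonneg _) (by positivity)
  · refine squeeze_zero_norm (fun t => ?_) hlim
    rw [norm_smul]
    have := key (1 + (t : ℂ) * I) (by rw [e1]; norm_num) (by rw [e1])
    rw [e1'] at this
    exact mul_le_mul this (leF t) (norm_nonneg _) (by positivity)
  · intro t
    rw [norm_smul]
    exact mul_le_mul (key1 _ (by rw [e0]) (by rw [e0]; norm_num)) (leG t) (norm_nonneg _)
      (Real.exp_pos _).le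
  · intro t
    rw [norm_smul]
    exact mul_le_mul (key1 _ (by rw [e1]; norm_num) (by rw [e1])) (leF t) (norm_nonneg _)
      (Real.exp_pos _).le

/-- Upper bound. -/
lemma interpNorm_le {i : X₀ →ₗ[ℂ] X₁} {F : ℂ → X₁} {G : ℝ → X₀} {C θ : ℝ}
    (cont : ContinuousOn F {z | 0 ≤ z.re ∧ z.re ≤ 1})
    (bdd : ∃ B : ℝ, ∀ z : ℂ, 0 ≤ z.re → z.re ≤ 1 → ‖F z‖ ≤ B)
    (diff : DifferentiableOn ℂ F {z | 0 < z.re ∧ z.re < 1})
    (left : ∀ t : ℝ, F (t * I) = i (G t))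
    (contG : Continuous G)
    (leG : ∀ t : ℝ, ‖G t‖ ≤ C)
    (leF : ∀ t : ℝ, ‖F (1 + t * I)‖ ≤ C) :
    F θ ∈ interpSpace i θ ∧ interpNorm i θ (F θ) ≤ C := by
  have hC : 0 ≤ C := (norm_nonneg _).trans (leG 0)
  have e : ∀ δ : ℝ, exp ((δ : ℂ) * ((θ : ℂ) ^ 2 - (θ : ℂ) ^ 2)) • F θ = F θ := by
    intro δ
    simp
  constructor
  · refine ⟨_, _, _, adm_damp (θ := θ) one_pos cont bdd diff left contG leG leF, ?_⟩
    exact e 1
  · have h : ∀ δ : ℝ, 0 < δ → interpNorm i θ (F θ) ≤ Real.exp δ * C := by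
      intro δ hδ
      have := (adm_damp (θ := θ) hδ cont bdd diff left contG leG leF).interpNorm_le θ
      rwa [e δ] at this
    have hl : Tendsto (fun δ : ℝ => Real.exp δ * C) (𝓝[>] 0) (𝓝 C) := by
      have h1 : Tendsto (fun δ : ℝ => Real.exp δ * C) (𝓝 0) (𝓝 (Real.exp 0 * C)) :=
        (Real.continuous_exp.tendsto 0).mul_const C
      rw [Real.exp_zero, one_mul] at h1
      exact h1.mono_left nhdsWithin_le_nhds
    exact ge_of_tendsto hl (eventually_nhdsWithin_of_forall fun δ hδ => h δ hδ)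

lemma interpNorm_add_le {i : X₀ →ₗ[ℂ] X₁} {θ : ℝ} {ξ η : X₁} (hξ : ξ ∈ interpSpace i θ)
    (hη : η ∈ interpSpace i θ) :
    interpNorm i θ (ξ + η) ≤ interpNorm i θ ξ + interpNorm i θ η := by
  apply le_of_forall_pos_le_add
  intro ε hε
  have h1 : interpNorm i θ ξ < interpNorm i θ ξ + ε / 2 := by linarith
  have h2 : interpNorm i θ η < interpNorm i θ η + ε / 2 := by linarith
  obtain ⟨F₀, G₀, C₀, hA₀, hF₀⟩ := hξ
  obtain ⟨F₁, G₁, C₁, hA₁, hF₁⟩ := hη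
  have n1 : {C : ℝ | ∃ F G, Adm i F G C ∧ F θ = ξ}.Nonempty := ⟨C₀, F₀, G₀, hA₀, hF₀⟩
  have n2 : {C : ℝ | ∃ F G, Adm i F G C ∧ F θ = η}.Nonempty := ⟨C₁, F₁, G₁, hA₁, hF₁⟩
  obtain ⟨C, ⟨F, G, hA, hF⟩, hC⟩ := exists_lt_of_csInf_lt n1 h1
  obtain ⟨C', ⟨F', G', hA', hF'⟩, hC'⟩ := exists_lt_of_csInf_lt n2 h2
  have := (hA.add hA').interpNorm_le θ
  simp only [hF, hF'] at this
  linarith

lemma interpNorm_smul_le {i : X₀ →ₗ[ℂ] X₁} {θ : ℝ} {ξ : X₁} (hξ : ξ ∈ interpSpace i θ) (c : ℂ) :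
    interpNorm i θ (c • ξ) ≤ ‖c‖ * interpNorm i θ ξ := by
  apply le_of_forall_pos_le_add
  intro ε hε
  have h1 : interpNorm i θ ξ < interpNorm i θ ξ + ε / (‖c‖ + 1) := by
    have : 0 < ε / (‖c‖ + 1) := by positivity
    linarith
  obtain ⟨F₀, G₀, C₀, hA₀, hF₀⟩ := hξ
  have n1 : {C : ℝ | ∃ F G, Adm i F G C ∧ F θ = ξ}.Nonempty := ⟨C₀, F₀, G₀, hA₀, hF₀⟩
  obtain ⟨C, ⟨F, G, hA, hF⟩, hC⟩ := exists_lt_of_csInf_lt n1 h1
  have := (hA.smul c).interpNorm_le θ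
  simp only [hF] at this
  refine this.trans ((mul_le_mul_of_nonneg_left hC.le (norm_nonneg c)).trans ?_)
  rw [mul_add]
  have h3 : ‖c‖ * (ε / (‖c‖ + 1)) ≤ ε := by
    rw [mul_div_assoc', div_le_iff₀ (by positivity)]
    nlinarith [norm_nonneg c]
  linarith

/-- Transfer by a pair of contractions. -/
lemma interpNorm_map_le {Y₀ Y₁ : Type*} [NormedAddCommGroup Y₀] [NormedSpace ℂ Y₀]
    [NormedAddCommGroup Y₁] [NormedSpace ℂ Y₁] {i : X₀ →ₗ[ℂ] X₁} {j : Y₀ →ₗ[ℂ] Y₁}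
    (P : X₀ →L[ℂ] Y₀) (Q : X₁ →L[ℂ] Y₁) (hP : ∀ x, ‖P x‖ ≤ ‖x‖) (hQ : ∀ x, ‖Q x‖ ≤ ‖x‖)
    (hPQ : ∀ x, Q (i x) = j (P x)) {θ : ℝ} {ξ : X₁} (hξ : ξ ∈ interpSpace i θ) :
    Q ξ ∈ interpSpace j θ ∧ interpNorm j θ (Q ξ) ≤ interpNorm i θ ξ := by
  have key : ∀ F G C, Adm i F G C → Adm j (fun z => Q (F z)) (fun t => P (G t)) C := by
    intro F G C h
    refine ⟨Q.continuous.comp_continuousOn h.cont, ?_, ?_, ?_, P.continuous.comp h.contG, ?_, ?_,
      ?_, ?_⟩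
    · obtain ⟨B, hB⟩ := h.bdd
      exact ⟨B, fun z h0 h1 => (hQ _).trans (hB z h0 h1)⟩
    · exact Q.differentiable.comp_differentiableOn h.diff
    · intro t
      rw [h.left, hPQ]
    · have := (P.continuous.tendsto 0).comp h.vanG
      rw [map_zero] at this
      exact this
    · have := (Q.continuous.tendsto 0).comp h.vanF
      rw [map_zero] at this
      exact this
    · exact fun t => (hP _).trans (h.leG t)
    · exact fun t => (hQ _).trans (h.leF t)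
  obtain ⟨F₀, G₀, C₀, hA₀, hF₀⟩ := hξ
  have n1 : {C : ℝ | ∃ F G, Adm i F G C ∧ F θ = ξ}.Nonempty := ⟨C₀, F₀, G₀, hA₀, hF₀⟩
  refine ⟨⟨_, _, _, key _ _ _ hA₀, by rw [hF₀]⟩, ?_⟩
  apply le_csInf n1
  rintro C ⟨F, G, hA, hF⟩
  have := (key _ _ _ hA).interpNorm_le θ
  rwa [hF] at this

end Interp

section Lower

variable {A : Type*} [CStarAlgebra A]

/-- Lower bound by duality and the three lines theorem. -/
lemma le_interpNorm {φ : A →L[ℂ] ℂ} {θ : ℝ} (h0 : 0 ≤ θ) (h1 : θ ≤ 1) {ξ : A →L[ℂ] ℂ}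
    (hξ : ξ ∈ interpSpace (embed φ) θ) (k : ℂ → A) (hk : Differentiable ℂ k)
    (hkb : ∃ B : ℝ, ∀ z : ℂ, 0 ≤ z.re → z.re ≤ 1 → ‖k z‖ ≤ B) {m : ℝ}
    (hk1 : ∀ t : ℝ, ‖k (1 + t * I)‖ ≤ m) (hk0 : ∀ t : ℝ, ‖embed φ (k (t * I))‖ ≤ m) :
    ‖ξ (k θ)‖ ≤ m * interpNorm (embed φ) θ ξ := by
  have hm : 0 ≤ m := (norm_nonneg _).trans (hk1 0)
  have key : ∀ F G C, Adm (embed φ) F G C → ‖F θ (k θ)‖ ≤ m * C := by
    intro F G C h
    have hC := h.nonneg
    have hmC : 0 ≤ m * C := mul_nonneg hm hC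
    have hd : DiffContOnCl ℂ (fun z => F z (k z)) (HadamardThreeLines.verticalStrip 0 1) := by
      refine ⟨?_, ?_⟩
      · have e : HadamardThreeLines.verticalStrip 0 1 = {z : ℂ | 0 < z.re ∧ z.re < 1} := by
          ext z
          simp [HadamardThreeLines.verticalStrip]
        rw [e]
        exact h.diff.clm_apply hk.differentiableOn
      · have e : closure (HadamardThreeLines.verticalStrip 0 1) ⊆
            {z : ℂ | 0 ≤ z.re ∧ z.re ≤ 1} := by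
          apply closure_minimal
          · intro z hz
            simp only [HadamardThreeLines.verticalStrip, Set.mem_preimage, Set.mem_Ioo] at hz
            exact ⟨hz.1.le, hz.2.le⟩
          · exact (isClosed_le continuous_const continuous_re).inter
              (isClosed_le continuous_re continuous_const)
        exact (h.cont.mono e).clm_apply hk.continuous.continuousOn
    obtain ⟨B, hB⟩ := h.bdd
    obtain ⟨B', hB'⟩ := hkb
    have hBB : BddAbove ((norm ∘ fun z => F z (k z)) ''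
        HadamardThreeLines.verticalClosedStrip 0 1) := by
      refine ⟨B * B', ?_⟩
      rintro _ ⟨z, hz, rfl⟩
      simp only [HadamardThreeLines.verticalClosedStrip, Set.mem_preimage, Set.mem_Icc] at hz
      have hF := hB z hz.1 hz.2
      exact ((F z).le_opNorm _).trans (mul_le_mul hF (hB' z hz.1 hz.2) (norm_nonneg _)
        ((norm_nonneg _).trans hF))
    have ha : ∀ z ∈ re ⁻¹' {(0 : ℝ)}, ‖F z (k z)‖ ≤ m * C := by
      intro z hz
      have hz' : z = (z.im : ℂ) * I := by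
        apply Complex.ext <;> simp
        exact hz
      rw [hz', h.left, embed_apply]
      have : φ (jordan (G z.im) (k (z.im * I))) = embed φ (k (z.im * I)) (G z.im) := by
        rw [embed_apply]
        congr 1
        simp [jordan, add_comm]
      rw [this]
      exact ((embed φ (k (z.im * I))).le_opNorm _).trans
        (mul_le_mul (hk0 _) (h.leG _) (norm_nonneg _) hm)
    have hb : ∀ z ∈ re ⁻¹' {(1 : ℝ)}, ‖F z (k z)‖ ≤ m * C := by
      intro z hz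
      have hz' : z = 1 + (z.im : ℂ) * I := by
        apply Complex.ext <;> simp
        exact hz
      rw [hz']
      refine ((F (1 + (z.im : ℂ) * I)).le_opNorm _).trans ?_
      rw [mul_comm m C]
      exact mul_le_mul (h.leF _) (hk1 _) (norm_nonneg _) hC
    have hz : (θ : ℂ) ∈ HadamardThreeLines.verticalClosedStrip 0 1 := by
      simp [HadamardThreeLines.verticalClosedStrip, h0, h1]
    have := HadamardThreeLines.norm_le_interp_of_mem_verticalClosedStrip₀₁'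
      (fun z => F z (k z)) hz hd hBB ha hb
    simp only [ofReal_re] at this
    refine this.trans ?_
    rcases hmC.eq_or_lt with h3 | h3
    · rw [← h3]
      by_cases hθ : θ = 0
      · rw [hθ]; simp
      · rw [Real.zero_rpow hθ, mul_zero]
    · rw [← Real.rpow_add h3, sub_add_cancel, Real.rpow_one]
  obtain ⟨F₀, G₀, C₀, hA₀, hF₀⟩ := hξ
  rcases hm.eq_or_lt with h3 | h3
  · have := key _ _ _ hA₀
    rw [hF₀, ← h3, zero_mul] at this
    rw [← h3, zero_mul]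
    exact this
  · rw [mul_comm, ← div_le_iff₀ h3]
    have n1 : {C : ℝ | ∃ F G, Adm (embed φ) F G C ∧ F θ = ξ}.Nonempty := ⟨C₀, F₀, G₀, hA₀, hF₀⟩
    apply le_csInf n1
    rintro C ⟨F, G, hA, hF⟩
    have := key _ _ _ hA
    rw [hF] at this
    rw [div_le_iff₀ h3, mul_comm]
    exact this

end Lower

end Q88.JLp
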