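import Pool.Agent.Q88.JLp.Gen

/-!
# The interpolation norm of the `2 × 2` matrices of the form `U diag(s) V`
-/

set_option autoImplicit false

open Filter Topology Complex
open scoped Matrix.Norms.L2Operator

namespace Q88.JLp

/-- The von Neumann algebra of the `2 × 2` matrices, with the operator norm. -/
abbrev M2 : Type := Matrix (Fin 2) (Fin 2) ℂ

/-- The state `x ↦ a x₁₁ + (1 - a) x₂₂` of the `2 × 2` matrices. -/
noncomputable def diagState (a : ℝ) : M2 →L[ℂ] ℂ :=
  LinearMap.toContinuousLinearMap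
    { toFun := fun x => (a : ℂ) * x 0 0 + ((1 - a : ℝ) : ℂ) * x 1 1
      map_add' := fun x y => by simp only [Matrix.add_apply]; ring
      map_smul' := fun c x => by simp only [Matrix.smul_apply, smul_eq_mul, RingHom.id_apply]; ring }

lemma diagState_apply (a : ℝ) (x : M2) :
    diagState a x = (a : ℂ) * x 0 0 + ((1 - a : ℝ) : ℂ) * x 1 1 := rfl

/-- the reflection `diag(1, -1)` -/
def refl : M2 := Matrix.diagonal ![1, -1]

lemma refl_mem : refl ∈ unitary M2 := by
  rw [Unitary.mem_iff]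
  constructor <;>
  · ext i j
    fin_cases i <;> fin_cases j <;>
      simp [refl, Matrix.star_eq_conjTranspose]

lemma norm_diag_entry_le (x : M2) (j : Fin 2) : ‖x j j‖ ≤ ‖x‖ := by
  have h1 : Matrix.diagonal (fun j => x j j) = (1 / 2 : ℂ) • (x + refl * x * refl) := by
    ext i j
    fin_cases i <;> fin_cases j <;>
      simp [refl] <;> ring
  have h2 : ‖Matrix.diagonal (fun j => x j j)‖ ≤ ‖x‖ := by
    rw [h1, norm_smul]
    have h3 : ‖refl * x * refl‖ = ‖x‖ := by
      rw [CStarRing.norm_mul_mem_unitary _ refl_mem, CStarRing.norm_mem_unitary_mul _ refl_mem]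
    have h4 := norm_add_le x (refl * x * refl)
    rw [h3] at h4
    have h5 : ‖(1 / 2 : ℂ)‖ = 1 / 2 := by simp
    rw [h5]
    linarith
  refine le_trans ?_ h2
  rw [Matrix.l2_opNorm_diagonal]
  exact norm_le_pi_norm (fun j => x j j) j

/-- `U, V` is a frame for the state `φ` with the weights `w`. -/
structure Frame (φ : M2 →L[ℂ] ℂ) (w : Fin 2 → ℝ) (U V : M2) : Prop where
  memU : U ∈ unitary M2
  memV : V ∈ unitary M2
  nonneg : ∀ j, 0 < w j
  emb : ∀ (c : Fin 2 → ℂ) (y : M2), embed φ (U * Matrix.diagonal c * V) y =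
    ∑ j, (w j : ℂ) * c j * (V * y * U) j j
  emb' : ∀ (c : Fin 2 → ℂ) (y : M2), embed φ (star V * Matrix.diagonal c * star U) y =
    ∑ j, (w j : ℂ) * c j * (star U * y * star V) j j

namespace Frame

variable {φ : M2 →L[ℂ] ℂ} {w : Fin 2 → ℝ} {U V : M2}

lemma norm_emb (h : Frame φ w U V) (c : Fin 2 → ℂ) :
    ‖embed φ (U * Matrix.diagonal c * V)‖ ≤ ∑ j, w j * ‖c j‖ := by
  refine ContinuousLinearMap.opNorm_le_bound _
    (Finset.sum_nonneg fun j _ => mul_nonneg (h.nonneg j).le (norm_nonneg _)) fun y => ?_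
  rw [h.emb, Finset.sum_mul]
  refine (norm_sum_le _ _).trans (Finset.sum_le_sum fun j _ => ?_)
  rw [norm_mul, norm_mul, Complex.norm_real, Real.norm_eq_abs, abs_of_pos (h.nonneg j)]
  apply mul_le_mul_of_nonneg_left _ (mul_nonneg (h.nonneg j).le (norm_nonneg _))
  refine (norm_diag_entry_le _ _).trans ?_
  rw [CStarRing.norm_mul_mem_unitary _ h.memU, CStarRing.norm_mem_unitary_mul _ h.memV]

lemma norm_emb' (h : Frame φ w U V) (c : Fin 2 → ℂ) :
    ‖embed φ (star V * Matrix.diagonal c * star U)‖ ≤ ∑ j, w j * ‖c j‖ := by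
  have hU := Unitary.star_mem h.memU
  have hV := Unitary.star_mem h.memV
  refine ContinuousLinearMap.opNorm_le_bound _
    (Finset.sum_nonneg fun j _ => mul_nonneg (h.nonneg j).le (norm_nonneg _)) fun y => ?_
  rw [h.emb', Finset.sum_mul]
  refine (norm_sum_le _ _).trans (Finset.sum_le_sum fun j _ => ?_)
  rw [norm_mul, norm_mul, Complex.norm_real, Real.norm_eq_abs, abs_of_pos (h.nonneg j)]
  apply mul_le_mul_of_nonneg_left _ (mul_nonneg (h.nonneg j).le (norm_nonneg _))
  refine (norm_diag_entry_le _ _).trans ?_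
  rw [CStarRing.norm_mul_mem_unitary _ hV, CStarRing.norm_mem_unitary_mul _ hU]

lemma norm_mat (h : Frame φ w U V) (c : Fin 2 → ℂ) {C : ℝ} (hC : ∀ j, ‖c j‖ ≤ C) :
    ‖U * Matrix.diagonal c * V‖ ≤ C := by
  rw [CStarRing.norm_mul_mem_unitary _ h.memV, CStarRing.norm_mem_unitary_mul _ h.memU,
    Matrix.l2_opNorm_diagonal]
  exact (pi_norm_le_iff_of_nonneg ((norm_nonneg _).trans (hC 0))).mpr hC

lemma norm_mat' (h : Frame φ w U V) (c : Fin 2 → ℂ) {C : ℝ} (hC : ∀ j, ‖c j‖ ≤ C) :
    ‖star V * Matrix.diagonal c * star U‖ ≤ C := by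
  rw [CStarRing.norm_mul_mem_unitary _ (Unitary.star_mem h.memU),
    CStarRing.norm_mem_unitary_mul _ (Unitary.star_mem h.memV), Matrix.l2_opNorm_diagonal]
  exact (pi_norm_le_iff_of_nonneg ((norm_nonneg _).trans (hC 0))).mpr hC

lemma pairing (h : Frame φ w U V) (s κ : Fin 2 → ℂ) :
    embed φ (U * Matrix.diagonal s * V) (star V * Matrix.diagonal κ * star U) =
      ∑ j, (w j : ℂ) * s j * κ j := by
  rw [h.emb]
  refine Finset.sum_congr rfl fun j _ => ?_
  have hU : star U * U = 1 := (Unitary.mem_iff.mp h.memU).1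
  have hV : V * star V = 1 := (Unitary.mem_iff.mp h.memV).2
  have e : V * (star V * Matrix.diagonal κ * star U) * U = Matrix.diagonal κ := by
    calc V * (star V * Matrix.diagonal κ * star U) * U
        = (V * star V) * Matrix.diagonal κ * (star U * U) := by noncomm_ring
      _ = Matrix.diagonal κ := by rw [hU, hV, one_mul, mul_one]
  rw [e, Matrix.diagonal_apply_eq]

end Frame

/-- the functions `z ↦ E(c(z))`, where `c j z = s j exp ((4z - 1) l j)`, are entire -/
lemma differentiable_fam (P Q : M2) (s : Fin 2 → ℂ) (l : Fin 2 → ℝ) :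
    Differentiable ℂ (fun z : ℂ => P * Matrix.diagonal (fun j => s j * exp ((4 * z - 1) * l j)) * Q) := by
  have e : (fun z : ℂ => P * Matrix.diagonal (fun j => s j * exp ((4 * z - 1) * l j)) * Q) =
      fun z => ∑ j : Fin 2, (s j * exp ((4 * z - 1) * l j)) •
        (P * Matrix.diagonal (Pi.single j 1) * Q) := by
    funext z
    have : Matrix.diagonal (fun j => s j * exp ((4 * z - 1) * l j)) =
        ∑ j : Fin 2, (s j * exp ((4 * z - 1) * l j)) •
          (Matrix.diagonal (Pi.single j (1 : ℂ)) : M2) := by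
      ext i k
      fin_cases i <;> fin_cases k <;> simp [Matrix.sum_apply, Fin.sum_univ_two]
    rw [this, Finset.mul_sum, Finset.sum_mul]
    refine Finset.sum_congr rfl fun j _ => ?_
    rw [mul_smul_comm, smul_mul_assoc]
  rw [e]
  apply Differentiable.fun_sum
  intro j _
  fun_prop

lemma norm_coef (s : ℂ) (l : ℝ) (z : ℂ) :
    ‖s * exp ((4 * z - 1) * l)‖ = ‖s‖ * Real.exp ((4 * z.re - 1) * l) := by
  rw [norm_mul, Complex.norm_exp]
  congr 2
  simp

/-- bound for the coefficient on the strip -/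
lemma norm_coef_le (s : ℂ) (l : ℝ) (z : ℂ) (h0 : 0 ≤ z.re) (h1 : z.re ≤ 1) :
    ‖s * exp ((4 * z - 1) * l)‖ ≤ ‖s‖ * Real.exp (3 * |l|) := by
  rw [norm_coef]
  apply mul_le_mul_of_nonneg_left _ (norm_nonneg s)
  apply Real.exp_le_exp.mpr
  have h3 : |4 * z.re - 1| ≤ 3 := by rw [abs_le]; constructor <;> linarith
  calc (4 * z.re - 1) * l ≤ |(4 * z.re - 1) * l| := le_abs_self _
    _ = |4 * z.re - 1| * |l| := abs_mul _ _
    _ ≤ 3 * |l| := mul_le_mul_of_nonneg_right h3 (abs_nonneg l)

/-- **The norm of `U diag(s) V` in a frame**, `p = 4`. -/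
theorem Frame.norm_eq {φ : M2 →L[ℂ] ℂ} {w : Fin 2 → ℝ} {U V : M2} (h : Frame φ w U V)
    (s : Fin 2 → ℂ) :
    embed φ (U * Matrix.diagonal s * V) ∈ interpSpace (embed φ) (1 / 4) ∧
    interpNorm (embed φ) (1 / 4) (embed φ (U * Matrix.diagonal s * V)) ^ 4 =
      ∑ j, w j * ‖s j‖ ^ 4 := by
  set T : ℝ := ∑ j, w j * ‖s j‖ ^ 4 with hT
  have hTn : 0 ≤ T := Finset.sum_nonneg fun j _ =>
    mul_nonneg (h.nonneg j).le (pow_nonneg (norm_nonneg _) 4)
  obtain ⟨N, hN0, hN⟩ : ∃ N : ℝ, 0 ≤ N ∧ N ^ 4 = T := by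
    refine ⟨Real.sqrt (Real.sqrt T), Real.sqrt_nonneg _, ?_⟩
    rw [show (4:ℕ) = 2 * 2 from rfl, pow_mul, Real.sq_sqrt (Real.sqrt_nonneg _), Real.sq_sqrt hTn]
  rcases hN0.eq_or_lt with h0 | hNpos
  · -- trivial case
    have hT0 : T = 0 := by rw [← hN, ← h0]; norm_num
    have hs : ∀ j, s j = 0 := by
      intro j
      have h1 := (Finset.sum_eq_zero_iff_of_nonneg (fun j _ =>
        mul_nonneg (h.nonneg j).le (pow_nonneg (norm_nonneg (s j)) 4))).mp hT0 j (Finset.mem_univ j)
      have h2 := (mul_eq_zero.mp h1).resolve_left (h.nonneg j).ne'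
      exact norm_eq_zero.mp (pow_eq_zero_iff (by norm_num) |>.mp h2)
    have hs' : s = 0 := funext hs
    have e : embed φ (U * Matrix.diagonal s * V) = 0 := by
      rw [hs']
      simp
    rw [e, hT0]
    refine ⟨Submodule.zero_mem _, ?_⟩
    have h3 : interpNorm (embed φ) (1 / 4) (0 : M2 →L[ℂ] ℂ) = 0 :=
      le_antisymm ((adm_zero (embed φ)).interpNorm_le (1 / 4)) (interpNorm_nonneg _ _ _)
    rw [h3]
    norm_num
  -- main case
  set r : Fin 2 → ℝ := fun j => ‖s j‖ / N with hr
  set l : Fin 2 → ℝ := fun j => Real.log (r j) with hl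
  have hexp : ∀ j, s j ≠ 0 → Real.exp (l j) = r j := fun j hj =>
    Real.exp_log (div_pos (norm_pos_iff.mpr hj) hNpos)
  -- coefficients at the two boundary lines
  have c0 : ∀ j, ‖s j‖ * Real.exp (-(l j)) ≤ N := by
    intro j
    by_cases hj : s j = 0
    · rw [hj, norm_zero, zero_mul]; exact hN0
    · rw [Real.exp_neg, hexp j hj, hr]
      have := norm_pos_iff.mpr hj
      apply le_of_eq
      field_simp
  have c1 : ∀ j, ‖s j‖ * Real.exp (3 * l j) = ‖s j‖ ^ 4 / N ^ 3 := by
    intro j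
    by_cases hj : s j = 0
    · rw [hj, norm_zero]; simp
    · have : Real.exp (3 * l j) = Real.exp (l j) ^ 3 := by
        rw [← Real.exp_nat_mul]; norm_num
      rw [this, hexp j hj, hr]
      field_simp
  have up : embed φ (U * Matrix.diagonal s * V) ∈ interpSpace (embed φ) (1 / 4) ∧
      interpNorm (embed φ) (1 / 4) (embed φ (U * Matrix.diagonal s * V)) ≤ N := by
    have hdif := differentiable_fam U V s l
    have hval : (fun z : ℂ => embed φ (U * Matrix.diagonal
        (fun j => s j * exp ((4 * z - 1) * l j)) * V)) ((1 / 4 : ℝ) : ℂ) =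
        embed φ (U * Matrix.diagonal s * V) := by
      have : (4 * ((1 / 4 : ℝ) : ℂ) - 1) = 0 := by push_cast; ring
      simp only [this, zero_mul, Complex.exp_zero, mul_one]
    have hE : Continuous (embed φ) := LinearMap.continuous_of_finiteDimensional (embed φ)
    have hlin : Differentiable ℂ (fun z : ℂ => embed φ (U * Matrix.diagonal
        (fun j => s j * exp ((4 * z - 1) * l j)) * V)) :=
      (LinearMap.toContinuousLinearMap (embed φ)).differentiable.comp hdif
    rw [← hval]
    refine interpNorm_le (θ := 1 / 4) (F := fun z : ℂ => embed φ (U * Matrix.diagonal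
        (fun j => s j * exp ((4 * z - 1) * l j)) * V))
      (G := fun t : ℝ => U * Matrix.diagonal
        (fun j => s j * exp ((4 * (t * I) - 1) * l j)) * V) hlin.continuous.continuousOn ?_
        hlin.differentiableOn (fun t => rfl) ?_ ?_ ?_
    · refine ⟨∑ j, w j * (‖s j‖ * Real.exp (3 * |l j|)), fun z h0 h1 => ?_⟩
      refine (h.norm_emb _).trans (Finset.sum_le_sum fun j _ => ?_)
      exact mul_le_mul_of_nonneg_left (norm_coef_le _ _ _ h0 h1) (h.nonneg j).le
    · have : Continuous fun t : ℝ => ((t : ℂ) * I) := by fun_prop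
      exact hdif.continuous.comp this
    · intro t
      apply h.norm_mat
      intro j
      rw [norm_coef]
      have : (4 * ((t : ℂ) * I).re - 1) * l j = -(l j) := by simp
      rw [this]
      exact c0 j
    · intro t
      refine (h.norm_emb _).trans ?_
      have e : ∀ j, w j * ‖s j * exp ((4 * (1 + (t : ℂ) * I) - 1) * l j)‖ =
          w j * ‖s j‖ ^ 4 / N ^ 3 := by
        intro j
        rw [norm_coef]
        have e3 : (1 + (t : ℂ) * I).re = 1 := by simp
        have : (4 * (1 + (t : ℂ) * I).re - 1) * l j = 3 * l j := by rw [e3]; ring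
        rw [this, c1, mul_div_assoc]
      simp only [e]
      rw [← Finset.sum_div, ← hT, ← hN]
      apply le_of_eq
      field_simp
  refine ⟨up.1, ?_⟩
  have low : N ≤ interpNorm (embed φ) (1 / 4) (embed φ (U * Matrix.diagonal s * V)) := by
    set κ : Fin 2 → ℂ := fun j => (starRingEnd ℂ) (s j) * (‖s j‖ : ℂ) ^ 2 with hκ
    have hκn : ∀ j, ‖κ j‖ = ‖s j‖ ^ 3 := by
      intro j
      simp only [hκ, norm_mul, norm_pow, RCLike.norm_conj, Complex.norm_real, norm_norm]
      ring
    have d1 : ∀ j, ‖κ j‖ * Real.exp (3 * -(l j)) ≤ N ^ 3 := by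
      intro j
      rw [hκn]
      have e1 : Real.exp (3 * -(l j)) = Real.exp (-(l j)) ^ 3 := by
        rw [← Real.exp_nat_mul]; norm_num
      rw [e1, ← mul_pow]
      exact pow_le_pow_left₀ (mul_nonneg (norm_nonneg _) (Real.exp_pos _).le) (c0 j) 3
    have d0 : ∀ j, ‖κ j‖ * Real.exp (-(-(l j))) = ‖s j‖ ^ 4 / N := by
      intro j
      rw [hκn, neg_neg]
      by_cases hj : s j = 0
      · rw [hj, norm_zero]; simp
      · rw [hexp j hj, hr]
        field_simp
    have hdif := differentiable_fam (star V) (star U) κ (fun j => -(l j))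
    have hval : star V * Matrix.diagonal
        (fun j => κ j * exp ((4 * ((1 / 4 : ℝ) : ℂ) - 1) * ((-(l j) : ℝ) : ℂ))) * star U =
        star V * Matrix.diagonal κ * star U := by
      have : (4 * ((1 / 4 : ℝ) : ℂ) - 1) = 0 := by push_cast; ring
      simp only [this, zero_mul, Complex.exp_zero, mul_one]
    have := le_interpNorm (φ := φ) (θ := 1 / 4) (by norm_num) (by norm_num) up.1
      (fun z : ℂ => star V * Matrix.diagonal
        (fun j => κ j * exp ((4 * z - 1) * ((-(l j) : ℝ) : ℂ))) * star U) hdif ?_ (m := N ^ 3) ?_ ?_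
    · rw [hval, h.pairing] at this
      have e : ∑ j, (w j : ℂ) * s j * κ j = ((N ^ 4 : ℝ) : ℂ) := by
        rw [hN, hT]
        push_cast
        refine Finset.sum_congr rfl fun j _ => ?_
        have e2 : s j * (starRingEnd ℂ) (s j) = ((‖s j‖ : ℂ)) ^ 2 := by
          rw [Complex.mul_conj, Complex.normSq_eq_norm_sq]
          push_cast
          rfl
        calc (w j : ℂ) * s j * κ j = (w j : ℂ) * (s j * (starRingEnd ℂ) (s j)) * (‖s j‖ : ℂ) ^ 2 := by
              simp only [hκ]; ring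
          _ = _ := by rw [e2]; ring
      rw [e, Complex.norm_real, Real.norm_eq_abs, abs_of_nonneg (by positivity)] at this
      have h3 : 0 < N ^ 3 := by positivity
      have h4 : N ^ 3 * N ≤ N ^ 3 *
          interpNorm (embed φ) (1 / 4) (embed φ (U * Matrix.diagonal s * V)) := by
        calc N ^ 3 * N = N ^ 4 := by ring
          _ ≤ _ := this
      exact le_of_mul_le_mul_left h4 h3
    · refine ⟨∑ j, ‖κ j‖ * Real.exp (3 * |-(l j)|), fun z h0 h1 => ?_⟩
      apply h.norm_mat'
      intro j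
      refine (norm_coef_le _ _ _ h0 h1).trans ?_
      exact Finset.single_le_sum (f := fun j => ‖κ j‖ * Real.exp (3 * |-(l j)|))
        (fun j _ => mul_nonneg (norm_nonneg _) (Real.exp_pos _).le) (Finset.mem_univ j)
    · intro t
      apply h.norm_mat'
      intro j
      rw [norm_coef]
      have e3 : (1 + (t : ℂ) * I).re = 1 := by simp
      have : (4 * (1 + (t : ℂ) * I).re - 1) * -(l j) = 3 * -(l j) := by rw [e3]; ring
      rw [this]
      exact d1 j
    · intro t
      refine (h.norm_emb' _).trans ?_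
      have e : ∀ j, w j * ‖κ j * exp ((4 * ((t : ℂ) * I) - 1) * ((-(l j) : ℝ) : ℂ))‖ =
          w j * ‖s j‖ ^ 4 / N := by
        intro j
        rw [norm_coef]
        have : (4 * ((t : ℂ) * I).re - 1) * -(l j) = -(-(l j)) := by simp
        rw [this, d0, mul_div_assoc]
      simp only [e]
      rw [← Finset.sum_div, ← hT, ← hN]
      apply le_of_eq
      field_simp
  rw [le_antisymm up.2 low, hN]

end Q88.JLp
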