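import Pool.Agent.Q88.JLp.Mat
import Pool.Agent.Q88.JLp.Alg

/-!
# Frames, singular values, and the norm of `L^4` for the trace
-/

set_option autoImplicit false

open Filter Topology Complex
open scoped Matrix.Norms.L2Operator ComplexOrder

namespace Q88.JLp

/-- the flip -/
def flip : M2 := !![0, 1; 1, 0]

lemma flip_mem : flip ∈ unitary M2 := by
  rw [Unitary.mem_iff]
  constructor <;>
  · ext i j
    fin_cases i <;> fin_cases j <;>
      simp [flip, Matrix.star_eq_conjTranspose, Matrix.mul_apply, Fin.sum_univ_two,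
        Matrix.conjTranspose_apply]

lemma star_flip : star flip = flip := by
  ext i j
  fin_cases i <;> fin_cases j <;> simp [flip, Matrix.star_eq_conjTranspose]

lemma star_refl : star refl = refl := by
  ext i j
  fin_cases i <;> fin_cases j <;> simp [refl, Matrix.star_eq_conjTranspose]

lemma one_mem_unitary : (1 : M2) ∈ unitary M2 := Submonoid.one_mem _

lemma jordan_apply (x y : M2) (i j : Fin 2) :
    jordan x y i j = (1 / 2) * ((x i 0 * y 0 j + x i 1 * y 1 j) + (y i 0 * x 0 j + y i 1 * x 1 j)) := by
  simp only [jordan, Matrix.smul_apply, Matrix.add_apply, Matrix.mul_apply, Fin.sum_univ_two,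
    smul_eq_mul]

lemma frame_diag {a : ℝ} (h0 : 0 < a) (h1 : a < 1) :
    Frame (diagState a) ![a, 1 - a] 1 1 where
  memU := one_mem_unitary
  memV := one_mem_unitary
  nonneg j := by fin_cases j <;> simp <;> linarith
  emb c y := by
    rw [embed_apply, diagState_apply, jordan_apply, jordan_apply]
    simp [Fin.sum_univ_two]
    ring
  emb' c y := by
    rw [embed_apply, diagState_apply, jordan_apply, jordan_apply]
    simp [Fin.sum_univ_two]
    ring

lemma flip_apply (i j : Fin 2) : flip i j = if i = j then 0 else 1 := by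
  fin_cases i <;> fin_cases j <;> rfl

lemma diag_flip (c : Fin 2 → ℂ) (i j : Fin 2) :
    (1 * Matrix.diagonal c * flip : M2) i j = if i = j then 0 else c i := by
  rw [one_mul, Matrix.diagonal_mul, flip_apply]
  split_ifs <;> simp

lemma flip_diag (c : Fin 2 → ℂ) (i j : Fin 2) :
    (flip * Matrix.diagonal c * star 1 : M2) i j = if i = j then 0 else c j := by
  rw [star_one, mul_one, Matrix.mul_diagonal, flip_apply]
  split_ifs <;> simp

lemma flip_mul_apply (y : M2) :
    (flip * y * 1) 0 0 = y 1 0 ∧ (flip * y * 1) 1 1 = y 0 1 := by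
  constructor <;>
  · rw [mul_one, Matrix.mul_apply, Fin.sum_univ_two, flip_apply, flip_apply]
    simp

lemma mul_flip_apply (y : M2) :
    (star 1 * y * flip) 0 0 = y 0 1 ∧ (star 1 * y * flip) 1 1 = y 1 0 := by
  constructor <;>
  · rw [star_one, one_mul, Matrix.mul_apply, Fin.sum_univ_two, flip_apply, flip_apply]
    simp

lemma frame_off (a : ℝ) : Frame (diagState a) ![1 / 2, 1 / 2] 1 flip where
  memU := one_mem_unitary
  memV := flip_mem
  nonneg j := by fin_cases j <;> simp
  emb c y := by
    rw [embed_apply, diagState_apply, jordan_apply, jordan_apply, Fin.sum_univ_two,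
      (flip_mul_apply y).1, (flip_mul_apply y).2]
    simp only [diag_flip]
    simp
    ring
  emb' c y := by
    rw [embed_apply, diagState_apply, jordan_apply, jordan_apply, star_flip, Fin.sum_univ_two,
      (mul_flip_apply y).1, (mul_flip_apply y).2]
    simp only [flip_diag]
    simp
    ring

lemma embed_trace (x y : M2) : embed (diagState (1 / 2)) x y = (1 / 2) * Matrix.trace (x * y) := by
  rw [embed_apply, diagState_apply, jordan_apply, jordan_apply, Matrix.trace_fin_two,
    Matrix.mul_apply, Matrix.mul_apply, Fin.sum_univ_two, Fin.sum_univ_two]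
  push_cast
  ring

lemma frame_tr {U V : M2} (hU : U ∈ unitary M2) (hV : V ∈ unitary M2) :
    Frame (diagState (1 / 2)) ![1 / 2, 1 / 2] U V := by
  have key : ∀ (P Q : M2) (c : Fin 2 → ℂ) (y : M2),
      embed (diagState (1 / 2)) (P * Matrix.diagonal c * Q) y =
        ∑ j, ((![1 / 2, 1 / 2] : Fin 2 → ℝ) j : ℂ) * c j * (Q * y * P) j j := by
    intro P Q c y
    rw [embed_trace]
    have e : Matrix.trace (P * Matrix.diagonal c * Q * y) =
        Matrix.trace (Matrix.diagonal c * (Q * y * P)) := by
      rw [show P * Matrix.diagonal c * Q * y = P * (Matrix.diagonal c * Q * y) by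
        simp only [mul_assoc], Matrix.trace_mul_comm]
      simp only [mul_assoc]
    rw [e, Matrix.trace_fin_two, Matrix.diagonal_mul, Matrix.diagonal_mul, Fin.sum_univ_two]
    simp
    ring
  refine ⟨hU, hV, ?_, key U V, ?_⟩
  · intro j
    fin_cases j <;> simp
  · exact key (star V) (star U)

/-- singular value decomposition of an invertible matrix -/
lemma exists_svd (x : M2) (hx : x.det ≠ 0) :
    ∃ U ∈ unitary M2, ∃ V ∈ unitary M2, ∃ s : Fin 2 → ℂ, x = U * Matrix.diagonal s * V := by
  have hinj : Function.Injective (Matrix.mulVec x) := by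
    have : IsUnit x := (Matrix.isUnit_iff_isUnit_det x).mpr (isUnit_iff_ne_zero.mpr hx)
    exact Matrix.mulVec_injective_of_isUnit this
  have hP : (Matrix.conjTranspose x * x).PosDef := Matrix.PosDef.conjTranspose_mul_self x hinj
  set W : Matrix.unitaryGroup (Fin 2) ℂ := hP.1.eigenvectorUnitary with hW
  set l := hP.1.eigenvalues with hl
  have hlpos : ∀ i, 0 < l i := hP.eigenvalues_pos
  have hspec := hP.1.conjStarAlgAut_star_eigenvectorUnitary
  rw [Unitary.conjStarAlgAut_star_apply] at hspec
  have hWW : star (W : M2) * (W : M2) = 1 := (Unitary.mem_iff.mp W.2).1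
  have hWW' : (W : M2) * star (W : M2) = 1 := (Unitary.mem_iff.mp W.2).2
  set s : Fin 2 → ℂ := fun i => ((Real.sqrt (l i) : ℝ) : ℂ) with hs
  set s' : Fin 2 → ℂ := fun i => (((Real.sqrt (l i))⁻¹ : ℝ) : ℂ) with hs'
  have hss : Matrix.diagonal s' * Matrix.diagonal s = (1 : M2) := by
    rw [Matrix.diagonal_mul_diagonal, ← Matrix.diagonal_one]
    congr 1
    funext i
    simp only [hs, hs']
    have : Real.sqrt (l i) ≠ 0 := (Real.sqrt_pos.mpr (hlpos i)).ne'
    rw [← ofReal_mul, inv_mul_cancel₀ this, ofReal_one]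
  have hstar : star (Matrix.diagonal s' : M2) = Matrix.diagonal s' := by
    rw [Matrix.star_eq_conjTranspose, Matrix.diagonal_conjTranspose]
    congr 1
    funext i
    simp [hs']
  have hU : star (x * (W : M2) * Matrix.diagonal s') * (x * (W : M2) * Matrix.diagonal s') = 1 := by
    calc star (x * (W : M2) * Matrix.diagonal s') * (x * (W : M2) * Matrix.diagonal s')
        = Matrix.diagonal s' * (star (W : M2) * (star x * x) * (W : M2)) * Matrix.diagonal s' := by
          rw [star_mul, star_mul, hstar]
          noncomm_ring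
      _ = Matrix.diagonal s' * Matrix.diagonal (RCLike.ofReal ∘ l) * Matrix.diagonal s' := by
          rw [← hspec]
          rfl
      _ = 1 := by
          rw [Matrix.diagonal_mul_diagonal, Matrix.diagonal_mul_diagonal, ← Matrix.diagonal_one]
          congr 1
          funext i
          simp only [hs', Function.comp_apply]
          have h1 : Real.sqrt (l i) ≠ 0 := (Real.sqrt_pos.mpr (hlpos i)).ne'
          have h2 : Real.sqrt (l i) * Real.sqrt (l i) = l i := Real.mul_self_sqrt (hlpos i).le
          have h3 : (RCLike.ofReal (l i) : ℂ) = ((l i : ℝ) : ℂ) := rfl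
          have h4 : (Real.sqrt (l i))⁻¹ * l i * (Real.sqrt (l i))⁻¹ = 1 := by
            rw [mul_assoc, mul_comm (l i), ← mul_assoc, ← mul_inv, h2,
              inv_mul_cancel₀ (hlpos i).ne']
          rw [h3, ← ofReal_mul, ← ofReal_mul, h4, ofReal_one]
  refine ⟨x * (W : M2) * Matrix.diagonal s', ?_, star (W : M2), Unitary.star_mem W.2, s, ?_⟩
  · rw [Unitary.mem_iff]
    exact ⟨hU, mul_eq_one_comm.mp hU⟩
  · calc x = x * ((W : M2) * star (W : M2)) := by rw [hWW', mul_one]
      _ = x * (W : M2) * (Matrix.diagonal s' * Matrix.diagonal s) * star (W : M2) := by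
          rw [hss]; noncomm_ring
      _ = _ := by noncomm_ring

lemma cast_tt_trace (y : M2) : (tt y : ℂ) = Matrix.trace (star y * y) := by
  rw [cast_tt, Matrix.trace_fin_two, Matrix.star_eq_conjTranspose, Matrix.mul_apply,
    Matrix.mul_apply, Fin.sum_univ_two, Fin.sum_univ_two]
  simp only [Matrix.conjTranspose_apply]
  change _ = (starRingEnd ℂ) (y 0 0) * y 0 0 + (starRingEnd ℂ) (y 1 0) * y 1 0 +
    ((starRingEnd ℂ) (y 0 1) * y 0 1 + (starRingEnd ℂ) (y 1 1) * y 1 1)
  ring

lemma tt_unitary {U V : M2} (hU : U ∈ unitary M2) (hV : V ∈ unitary M2) (x : M2) :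
    tt (U * x * V) = tt x := by
  have h1 : star U * U = 1 := (Unitary.mem_iff.mp hU).1
  have h2 : V * star V = 1 := (Unitary.mem_iff.mp hV).2
  have : (tt (U * x * V) : ℂ) = (tt x : ℂ) := by
    rw [cast_tt_trace, cast_tt_trace]
    calc Matrix.trace (star (U * x * V) * (U * x * V))
        = Matrix.trace (star V * (star x * (star U * U) * x * V)) := by
          rw [star_mul, star_mul]
          congr 1
          noncomm_ring
      _ = Matrix.trace (star x * x * (V * star V)) := by
          rw [h1, Matrix.trace_mul_comm]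
          congr 1
          noncomm_ring
      _ = _ := by rw [h2, mul_one]
  exact_mod_cast this

lemma normSq_det_unitary {U : M2} (hU : U ∈ unitary M2) : normSq U.det = 1 := by
  have h1 : star U * U = 1 := (Unitary.mem_iff.mp hU).1
  have h2 : (star U * U).det = 1 := by rw [h1, Matrix.det_one]
  rw [Matrix.det_mul, Matrix.star_eq_conjTranspose, Matrix.det_conjTranspose] at h2
  have h3 : ((normSq U.det : ℝ) : ℂ) = 1 := by
    rw [← mul_conj, mul_comm]
    exact h2
  exact_mod_cast h3

lemma qq_unitary {U V : M2} (hU : U ∈ unitary M2) (hV : V ∈ unitary M2) (s : Fin 2 → ℂ) :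
    qq (U * Matrix.diagonal s * V) = ‖s 0‖ ^ 4 + ‖s 1‖ ^ 4 := by
  unfold qq
  rw [tt_unitary hU hV, Matrix.det_mul, Matrix.det_mul, map_mul, map_mul, normSq_det_unitary hU,
    normSq_det_unitary hV, Matrix.det_diagonal, Fin.prod_univ_two, map_mul]
  simp only [tt, Matrix.diagonal_apply_eq, normSq_eq_norm_sq, one_mul, mul_one]
  have e1 : (Matrix.diagonal s : M2) 0 1 = 0 := Matrix.diagonal_apply_ne _ (by decide)
  have e2 : (Matrix.diagonal s : M2) 1 0 = 0 := Matrix.diagonal_apply_ne _ (by decide)
  rw [e1, e2, norm_zero]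
  ring

end Q88.JLp
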